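import Pool.Agent.Lib.MP_1a91b9_ntDZ.Z7
import Pool.Agent.Lib.MP_1a91b9_ntDF.KA1

/-!
# MP_1a91b9_nt (the discriminant form, fourth part): separated infinite subsets
-/

set_option autoImplicit false

namespace Pool.Agent.Lib.MP_1a91b9_ntDZ

open NumberField
open Pool.Agent.Lib.MP_1a91b9_ntDF (Pf tw Hyp)

/-- Finitely many elements of a set of elements which are pairwise different modulo `p`-th powers of `K` become a
multiple of a given element up to `p`-th powers of `F`. -/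
private theorem U10_fin {K : Type} [Field K] [NumberField K] {p : ℕ} [Fact p.Prime] {ζ : K}
    (hζ : IsPrimitiveRoot ζ p) [IsPrincipalIdealRing (𝓞 K)] [Finite (𝓞 K)ˣ] (F : Type) [Field F]
    [NumberField F] [Algebra K F] {T : Set K} (h0 : (0 : K) ∉ T)
    (hT : ∀ δ ∈ T, ∀ δ' ∈ T, δ ≠ δ' → ∀ x : K, x ^ p * δ' ≠ δ) {κ : K} (hκ : κ ≠ 0) :
    {δ ∈ T | ∃ x : F, x ^ p = algebraMap K F (κ * δ)}.Finite := by
  classical
  have hch : ∀ δ : K, ∃ (b : K) (c : 𝓞 K), δ ≠ 0 → b ≠ 0 ∧ δ = b ^ p * algebraMap (𝓞 K) K c ∧ Pf p c := by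
    intro δ
    by_cases h : δ = 0
    · exact ⟨0, 0, fun h' => absurd h h'⟩
    · obtain ⟨b, c, h1, h2, h3⟩ := Pool.Agent.Lib.MP_1a91b9_ntDF.a1_pfK (R := 𝓞 K)
        (Fact.out : p.Prime).pos δ h
      exact ⟨b, c, fun _ => ⟨h1, h2, h3⟩⟩
  choose b c hbc using hch
  refine Set.Finite.of_injOn (f := c) (t := {d : 𝓞 K | Pf p d ∧ ∃ x : F, x ^ p = algebraMap K F (κ * (d : K))})
    ?_ ?_ (fin_cls hζ F hκ)
  · rintro δ ⟨hδ, x, hx⟩
    obtain ⟨h1, h2, h3⟩ := hbc δ fun h => h0 (h ▸ hδ)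
    refine ⟨h3, x / algebraMap K F (b δ), ?_⟩
    have hbF : algebraMap K F (b δ) ≠ 0 := (map_ne_zero _).2 h1
    rw [div_pow, div_eq_iff (pow_ne_zero p hbF), hx, ← map_pow, ← map_mul]
    congr 1
    have h4 : δ = b δ ^ p * (c δ : K) := h2
    rw [mul_assoc, mul_comm (c δ : K), ← h4]
  · rintro δ ⟨hδ, -⟩ δ' ⟨hδ', -⟩ h
    by_contra hne
    obtain ⟨h1, h2, -⟩ := hbc δ fun h => h0 (h ▸ hδ)
    obtain ⟨h1', h2', -⟩ := hbc δ' fun h => h0 (h ▸ hδ')
    refine hT δ hδ δ' hδ' hne (b δ / b δ') ?_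
    have h3 : c δ = c δ' := h
    have h4 : (b δ / b δ') ^ p * (b δ' ^ p * algebraMap (𝓞 K) K (c δ')) = b δ ^ p * algebraMap (𝓞 K) K (c δ) := by
      rw [h3, ← mul_assoc, div_pow, div_mul_cancel₀ _ (pow_ne_zero p h1')]
    rw [← h2', ← h2] at h4
    exact h4

/-- **Separated infinite subsets.** Every infinite set of elements which are pairwise different modulo `p`-th powers of
`K` has an infinite subset which is separated over `F`. -/
theorem u10_sep (p : ℕ) (K : Type) [Field K] [NumberField K] (E : WeierstrassCurve K) (F : Type)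
    [Field F] [NumberField F] [Algebra K F] (H : Hyp p K E F) [IsPrincipalIdealRing (𝓞 K)]
    [Finite (𝓞 K)ˣ] {T : Set K} (hTi : T.Infinite) (h0 : (0 : K) ∉ T)
    (hT : ∀ δ ∈ T, ∀ δ' ∈ T, δ ≠ δ' → ∀ x : K, x ^ p * δ' ≠ δ) :
    ∃ T' ⊆ T, T'.Infinite ∧ ∀ δ ∈ T', ∀ δ' ∈ T', δ ≠ δ' → Sep p E F δ δ' := by
  have hne : ∀ δ ∈ T, δ ≠ 0 := fun δ hδ h => h0 (h ▸ hδ)
  obtain ⟨-, hΔ, h1, h6, hp', -⟩ := H
  rcases hp' with ⟨rfl, h3, -⟩ | ⟨rfl, h2, h4, s, hs⟩
  · have ha4 : E.a₄ ≠ 0 := by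
      intro h
      refine hΔ ?_
      simp only [WeierstrassCurve.Δ, WeierstrassCurve.b₂, WeierstrassCurve.b₄, WeierstrassCurve.b₆,
        WeierstrassCurve.b₈, h, h1, h3, h6]
      ring
    have he0 : ∀ e ∈ ({1, -1, E.a₄, -E.a₄} : Set K), e ≠ 0 := by
      intro e he
      simp only [Set.mem_insert_iff, Set.mem_singleton_iff] at he
      rcases he with rfl | rfl | rfl | rfl
      · exact one_ne_zero
      · exact neg_ne_zero.2 one_ne_zero
      · exact ha4
      · exact neg_ne_zero.2 ha4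
    have hζ : IsPrimitiveRoot (-1 : K) 2 := IsPrimitiveRoot.neg_one 0 (by norm_num)
    obtain ⟨T', hTA, hT', hsep⟩ := ind_inf T hTi
      (fun a b => ∃ e ∈ ({1, -1, E.a₄, -E.a₄} : Set K), ∃ x : F,
        x ^ 2 = algebraMap K F (e * a * b)) (by
      intro a ha
      have ha0 := hne a ha
      have hfin : (⋃ e ∈ ({1, -1, E.a₄, -E.a₄} : Set K),
          {b ∈ T | ∃ x : F, x ^ 2 = algebraMap K F (e * a * b)}).Finite := by
        refine Set.Finite.biUnion (by simp) fun e he => ?_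
        exact U10_fin hζ F h0 hT (mul_ne_zero (he0 e he) ha0)
      refine hfin.subset ?_
      rintro b ⟨hb, hR⟩
      have hR' : ∃ e ∈ ({1, -1, E.a₄, -E.a₄} : Set K), ∃ x : F,
          x ^ 2 = algebraMap K F (e * a * b) := by
        rcases hR with h | ⟨e, he, x, hx⟩
        · exact h
        · exact ⟨e, he, x, by rw [hx, mul_right_comm]⟩
      obtain ⟨e, he, x, hx⟩ := hR'
      exact Set.mem_biUnion he ⟨hb, x, hx⟩)
    refine ⟨T', hTA, hT', fun a ha b hb hab x => ⟨fun _ e he hx => hsep a ha b hb hab ?_, fun h => ?_⟩⟩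
    · refine ⟨e, he, x * algebraMap K F b, ?_⟩
      have h7 : (x * algebraMap K F b) ^ 2 =
          (x ^ 2 * algebraMap K F b) * algebraMap K F b := by ring
      rw [h7, hx, ← map_mul]
    · exact absurd h (by norm_num)
  · have ha3 : E.a₃ ≠ 0 := by
      intro h
      refine hΔ ?_
      simp only [WeierstrassCurve.Δ, WeierstrassCurve.b₂, WeierstrassCurve.b₄, WeierstrassCurve.b₆,
        WeierstrassCurve.b₈, h, h1, h2, h4, h6]
      ring
    obtain ⟨z, hζ⟩ : ∃ z : K, IsPrimitiveRoot z 3 := by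
      obtain ⟨z, hz⟩ : ∃ z : K, z ^ 2 + z + 1 = 0 := by
        refine ⟨(-1 + s) / 2, ?_⟩
        field_simp
        linear_combination hs
      refine ⟨z, ?_⟩
      have hz1 : z ≠ 1 := by
        rintro rfl
        have h3 : (3 : K) ≠ 0 := by norm_num
        apply h3
        linear_combination hz
      have hz3 : z ^ 3 = 1 := by linear_combination (z - 1) * hz
      rw [← orderOf_eq_prime hz3 hz1]
      exact IsPrimitiveRoot.orderOf z
    have hA' : (T \ {d ∈ T | ∃ x : F, x ^ 3 = algebraMap K F (E.a₃ * d)}).Infinite :=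
      hTi.sdiff (U10_fin hζ F h0 hT ha3)
    obtain ⟨T', hTA, hT', hsep⟩ := ind_inf _ hA'
      (fun a b => (∃ x : F, x ^ 3 * algebraMap K F b = algebraMap K F a) ∨
        ∃ x : F, x ^ 3 = algebraMap K F (E.a₃ ^ 2 * a * b)) (by
      rintro a ⟨ha, -⟩
      have ha0 := hne a ha
      have hfin : ({b ∈ T | ∃ x : F, x ^ 3 = algebraMap K F (a⁻¹ * b)} ∪
          {b ∈ T | ∃ x : F, x ^ 3 = algebraMap K F (E.a₃ ^ 2 * a * b)}).Finite :=
        (U10_fin hζ F h0 hT (inv_ne_zero ha0)).union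
          (U10_fin hζ F h0 hT (mul_ne_zero (pow_ne_zero 2 ha3) ha0))
      refine hfin.subset ?_
      rintro b ⟨⟨hb, -⟩, hR⟩
      have hb0 := hne b hb
      have haF : algebraMap K F a ≠ 0 := by
        rw [Ne, map_eq_zero]
        exact ha0
      have hbF : algebraMap K F b ≠ 0 := by
        rw [Ne, map_eq_zero]
        exact hb0
      rcases hR with (⟨x, hx⟩ | ⟨x, hx⟩) | (⟨x, hx⟩ | ⟨x, hx⟩)
      · refine Or.inl ⟨hb, x⁻¹, ?_⟩
        have hx0 : x ^ 3 ≠ 0 := by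
          intro h
          rw [h, zero_mul] at hx
          exact haF hx.symm
        rw [map_mul, map_inv₀, ← hx, inv_pow, mul_inv, mul_assoc, inv_mul_cancel₀ hbF, mul_one]
      · exact Or.inr ⟨hb, x, hx⟩
      · refine Or.inl ⟨hb, x, ?_⟩
        rw [map_mul, map_inv₀, ← hx]
        field_simp
      · refine Or.inr ⟨hb, x, ?_⟩
        rw [hx, mul_right_comm])
    refine ⟨T', fun d hd => (hTA hd).1, hT', fun a ha b hb hab x => ⟨fun h => ?_, fun _ => ⟨fun hx => ?_,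
      fun hx => hsep a ha b hb hab (Or.inl ⟨x, hx⟩), fun hx => hsep a ha b hb hab (Or.inr ⟨x, hx⟩)⟩⟩⟩
    · exact absurd h (by norm_num)
    · exact (hTA ha).2 ⟨(hTA ha).1, x, hx⟩

end Pool.Agent.Lib.MP_1a91b9_ntDZ
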