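import Pool.Agent.Lib.MP_1a91b9_ntDZ.U8

/-!
# MP_1a91b9_nt (the discriminant form, fourth part): the universal set of twists
-/

set_option autoImplicit false

namespace Pool.Agent.Lib.MP_1a91b9_ntDZ

open NumberField
open Pool.Agent.Lib.MP_1a91b9_ntDF (tw Hyp NK)

private theorem U9_countable (K : Type) [Field K] [NumberField K] : Countable (𝓞 K) := by
  have h1 : (Set.univ : Set K).Countable := by
    have h2 : {x : K | IsAlgebraic ℚ x}.Countable := Algebraic.countable ℚ K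
    refine h2.mono fun x _ => Algebra.IsAlgebraic.isAlgebraic x
  have _ : Countable K := Set.countable_univ_iff.1 h1
  exact (FaithfulSMul.algebraMap_injective (𝓞 K) K).countable

/-- The field generated by the `l`-th roots of finitely many elements. -/
private theorem U9_nk {K : Type} [Field K] [NumberField K] {l : ℕ} (hl : 0 < l) {m : ℕ} (d : Fin m → K) :
    NumberField (NK l d) ∧
      IntermediateField.adjoin K {z : NK l d | ∃ c : K, z ^ l = algebraMap K (NK l d) c} = ⊤ := by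
  have hfin : Finite {x : AlgebraicClosure K | ∃ i, x ^ l = algebraMap K (AlgebraicClosure K) (d i)} := by
    have h1 : {x : AlgebraicClosure K | ∃ i, x ^ l = algebraMap K (AlgebraicClosure K) (d i)} =
        ⋃ i, {x | x ^ l = algebraMap K (AlgebraicClosure K) (d i)} := by
      ext x
      simp only [Set.mem_ofPred_eq, Set.mem_iUnion]
    rw [h1]
    refine Set.Finite.to_subtype (Set.finite_iUnion fun i => ?_)
    refine ((Polynomial.nthRootsFinset l (algebraMap K (AlgebraicClosure K) (d i))).finite_toSet).subset ?_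
    intro x hx
    exact (Polynomial.mem_nthRootsFinset hl _).2 hx
  have hfd : FiniteDimensional K (NK l d) :=
    IntermediateField.finiteDimensional_adjoin fun x _ => Algebra.IsIntegral.isIntegral x
  refine ⟨NumberField.of_module_finite K (NK l d), ?_⟩
  refine IntermediateField.lift_injective (NK l d) ?_
  rw [IntermediateField.lift_adjoin, IntermediateField.lift_top]
  refine le_antisymm (IntermediateField.adjoin_le_iff.2 ?_) (IntermediateField.adjoin_le_iff.2 ?_)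
  · rintro _ ⟨z, -, rfl⟩
    exact z.2
  · rintro x ⟨i, hx⟩
    have hxN : x ∈ NK l d := IntermediateField.subset_adjoin K _ ⟨i, hx⟩
    refine IntermediateField.subset_adjoin K _ ⟨⟨x, hxN⟩, ⟨d i, Subtype.ext ?_⟩, rfl⟩
    exact hx

/-- A number field generated over `K` by `l`-th roots of elements of `K` is contained in a field generated by the
`l`-th roots of finitely many integers of `K`. -/
theorem u9_emb {K : Type} [Field K] [NumberField K] {l : ℕ} (hl : 0 < l) (F : Type) [Field F] [NumberField F]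
    [Algebra K F] (hF : IntermediateField.adjoin K {x : F | ∃ c : K, x ^ l = algebraMap K F c} = ⊤) :
    ∃ (n : ℕ) (e : Fin n → 𝓞 K), Nonempty (F →ₐ[K] NK l fun j => (e j : K)) := by
  classical
  have _ : FiniteDimensional K F := Module.Finite.of_restrictScalars_finite ℚ K F
  obtain ⟨α, hα⟩ := Field.exists_primitive_element K F
  have hαm : α ∈ IntermediateField.adjoin K {x : F | ∃ c : K, x ^ l = algebraMap K F c} := by
    rw [hF]
    exact IntermediateField.mem_top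
  obtain ⟨T, hTS, hαT⟩ := IntermediateField.exists_finset_of_mem_adjoin hαm
  have hT : IntermediateField.adjoin K (T : Set F) = ⊤ := by
    rw [eq_top_iff, ← hα, IntermediateField.adjoin_le_iff]
    rintro _ rfl
    exact hαT
  have hc : ∀ x : T, ∃ a b : 𝓞 K, b ≠ 0 ∧ (x : F) ^ l * algebraMap K F (b : K) = algebraMap K F (a : K) := by
    intro x
    obtain ⟨c, hc⟩ := hTS x.2
    obtain ⟨⟨a, b⟩, hab⟩ := IsLocalization.surj (nonZeroDivisors (𝓞 K)) c
    refine ⟨a, b, nonZeroDivisors.ne_zero b.2, ?_⟩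
    rw [hc, ← map_mul]
    exact congrArg _ hab
  choose a b hb0 hab using hc
  obtain ⟨g⟩ : Nonempty (Fin (Fintype.card T) ≃ T) := ⟨(Fintype.equivFin T).symm⟩
  obtain ⟨e, he⟩ : ∃ e : Fin (Fintype.card T) → 𝓞 K, e = fun j => a (g j) * b (g j) ^ (l - 1) := ⟨_, rfl⟩
  obtain ⟨σ⟩ : Nonempty (F →ₐ[K] AlgebraicClosure K) := ⟨IsAlgClosed.lift⟩
  have hmem : ∀ x : F, σ x ∈ NK l fun j => (e j : K) := by
    have h1 : (⊤ : IntermediateField K F).map σ ≤ NK l fun j => (e j : K) := by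
      rw [← hT, IntermediateField.adjoin_map, IntermediateField.adjoin_le_iff]
      rintro _ ⟨x, hx, rfl⟩
      have hb' : algebraMap K (AlgebraicClosure K) (b ⟨x, hx⟩ : K) ≠ 0 := by
        rw [Ne, map_eq_zero]
        intro h
        exact hb0 ⟨x, hx⟩ (RingOfIntegers.ext h)
      have h2 : algebraMap K (AlgebraicClosure K) (b ⟨x, hx⟩ : K) * σ x ∈ NK l fun j => (e j : K) := by
        refine IntermediateField.subset_adjoin K _ ⟨g.symm ⟨x, hx⟩, ?_⟩
        show _ = algebraMap K (AlgebraicClosure K) ((e (g.symm ⟨x, hx⟩) : 𝓞 K) : K)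
        rw [he]
        simp only [Equiv.apply_symm_apply]
        have h3 := congrArg σ (hab ⟨x, hx⟩)
        rw [map_mul, map_pow, AlgHom.commutes, AlgHom.commutes] at h3
        have h4 : ((a ⟨x, hx⟩ * b ⟨x, hx⟩ ^ (l - 1) : 𝓞 K) : K) = (a ⟨x, hx⟩ : K) * (b ⟨x, hx⟩ : K) ^ (l - 1) := by
          push_cast
          rfl
        rw [h4, map_mul, map_pow, ← h3, mul_pow]
        obtain ⟨k, rfl⟩ : ∃ k, l = k + 1 := ⟨l - 1, by omega⟩
        rw [Nat.add_sub_cancel]
        ring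
      have h3 := mul_mem ((NK l fun j => (e j : K)).inv_mem ((NK l fun j => (e j : K)).algebraMap_mem
        (b ⟨x, hx⟩ : K))) h2
      rw [← mul_assoc, inv_mul_cancel₀ hb', one_mul] at h3
      exact h3
    intro x
    exact h1 ⟨x, IntermediateField.mem_top, rfl⟩
  exact ⟨_, e, ⟨σ.codRestrict (NK l fun j => (e j : K)).toSubalgebra hmem⟩⟩

/-- **The universal set of twists.** -/
theorem u9_univ (p : ℕ) (K : Type) [Field K] [NumberField K] (hK : Module.finrank ℚ K = 2)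
    (E : WeierstrassCurve K) (hΔ : E.Δ ≠ 0) (h₁ : E.a₁ = 0) (h₆ : E.a₆ = 0)
    (hE : (p = 2 ∧ E.a₃ = 0 ∧ ∃ j D : ℤ,
        (j, D) ∈ [(0, -3), (54000, -3), (-12288000, -3), (1728, -4), (287496, -4), (-3375, -7),
          (16581375, -7), (8000, -8), (-32768, -11), (-884736, -19), (-884736000, -43),
          (-147197952000, -67), (-262537412640768000, -163)] ∧
        E.c₄ ^ 3 = j * E.Δ ∧ ∃ s : K, s ^ 2 = D) ∨
      (p = 3 ∧ E.a₂ = 0 ∧ E.a₄ = 0 ∧ ∃ s : K, s ^ 2 = -3))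
    (l : ℕ) (hl : l = p ∨ p = 2 ∧ l = 4 ∧ ∃ i : K, i ^ 2 = -1) [IsPrincipalIdealRing (𝓞 K)]
    [Finite (𝓞 K)ˣ] :
    ∃ U : Set K, U.Infinite ∧ 0 ∉ U ∧ (∀ δ ∈ U, ∀ δ' ∈ U, δ ≠ δ' → ∀ x : K, x ^ p * δ' ≠ δ) ∧
      ∀ (F : Type) [Field F] [NumberField F] [Algebra K F],
      IntermediateField.adjoin K {x : F | ∃ c : K, x ^ l = algebraMap K F c} = ⊤ →
      ∃ S : Set K, S.Finite ∧ (∀ δ ∈ U \ S, ∀ δ' ∈ U \ S, δ ≠ δ' → Sep p E F δ δ') ∧
        ∀ δ ∈ U \ S, PropZ K ((tw p E K δ).baseChange F) := by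
  classical
  have hl0 : 0 < l := by
    rcases hl with rfl | ⟨-, rfl, -⟩
    · rcases hE with ⟨rfl, -⟩ | ⟨rfl, -⟩ <;> norm_num
    · norm_num
  have _ := U9_countable K
  obtain ⟨f, hf⟩ := exists_surjective_nat (𝓞 K)
  obtain ⟨G, hGd⟩ : ∃ G : ℕ → IntermediateField K (AlgebraicClosure K),
      G = fun k => NK l (fun j : Fin k => ((f j : 𝓞 K) : K)) := ⟨_, rfl⟩
  have hmono : Monotone G := by
    intro k m hkm
    rw [hGd]
    refine IntermediateField.adjoin.mono K _ _ ?_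
    rintro x ⟨j, hj⟩
    exact ⟨⟨j, j.2.trans_le hkm⟩, hj⟩
  have hNF : ∀ k, NumberField (G k) := fun k => by
    rw [hGd]
    exact (U9_nk hl0 fun j : Fin k => ((f j : 𝓞 K) : K)).1
  have hGgen : ∀ k, IntermediateField.adjoin K {x : G k | ∃ c : K, x ^ l = algebraMap K (G k) c} = ⊤ := by
    rw [hGd]
    exact fun k => (U9_nk hl0 fun j : Fin k => ((f j : 𝓞 K) : K)).2
  obtain ⟨u, hinj, hu0, huZ, husep⟩ := u8_uni p K E G hmono fun k => ⟨hK, hΔ, h₁, h₆, hE, l, hl, hGgen k⟩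
  refine ⟨Set.range u, Set.infinite_range_of_injective hinj, ?_, ?_, ?_⟩
  · rintro ⟨m, hm⟩
    exact hu0 m hm
  · rintro _ ⟨m, rfl⟩ _ ⟨m', rfl⟩ hne x hx
    have hne' : m ≠ m' := fun h => hne (by rw [h])
    have h1 : Sep p E K (u m) (u m') :=
      u8_sub (Algebra.ofId K (G 0)) (husep 0 m m' (Nat.zero_le _) (Nat.zero_le _) hne')
    rcases hE with ⟨rfl, -⟩ | ⟨rfl, -⟩
    · refine (h1 x).1 rfl 1 (Set.mem_insert _ _) ?_
      rw [one_mul]
      exact hx
    · exact ((h1 x).2 rfl).2.1 hx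
  · intro F _ _ _ hF
    obtain ⟨n, e, ⟨φ⟩⟩ := u9_emb hl0 F hF
    choose s hs using fun i => hf (e i)
    obtain ⟨M, hM⟩ : ∃ M, ∀ i, s i < M :=
      ⟨(Finset.univ.sup s) + 1, fun i => Nat.lt_succ_of_le (Finset.le_sup (Finset.mem_univ i))⟩
    have hle : (NK l fun i => (e i : K)) ≤ G M := by
      rw [hGd]
      refine IntermediateField.adjoin.mono K _ _ ?_
      rintro x ⟨i, hx⟩
      refine ⟨⟨s i, hM i⟩, ?_⟩
      show x ^ l = algebraMap K (AlgebraicClosure K) ((f (s i) : 𝓞 K) : K)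
      rw [hs i]
      exact hx
    obtain ⟨ψ, -⟩ : ∃ ψ : F →ₐ[K] G M, ψ = (IntermediateField.inclusion hle).comp φ := ⟨_, rfl⟩
    have hge : ∀ δ ∈ Set.range u \ (u '' Set.Iio M), ∃ m, M ≤ m ∧ u m = δ := by
      rintro _ ⟨⟨m, rfl⟩, hm⟩
      refine ⟨m, ?_, rfl⟩
      by_contra h
      exact hm ⟨m, not_le.1 h, rfl⟩
    refine ⟨u '' Set.Iio M, (Set.finite_Iio _).image u, ?_, ?_⟩
    · intro δ hδ δ' hδ' hne
      obtain ⟨m, hm, rfl⟩ := hge δ hδ
      obtain ⟨m', hm', rfl⟩ := hge δ' hδ'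
      have hne' : m ≠ m' := fun h => hne (by rw [h])
      exact u8_sub ψ (husep M m m' hm hm' hne')
    · intro δ hδ
      obtain ⟨m, hm, rfl⟩ := hge δ hδ
      let _ : Algebra F (G M) := ψ.toRingHom.toAlgebra
      have _ : IsScalarTower K F (G M) := IsScalarTower.of_algebraMap_eq fun x => (ψ.commutes x).symm
      exact u8_desc p K E F ⟨hK, hΔ, h₁, h₆, hE, l, hl, hF⟩ (hu0 m) (G M) (huZ _ _ hm)

end Pool.Agent.Lib.MP_1a91b9_ntDZ
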