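import Pool.Agent.Lib.MP_1a91b9_ntDZ.FinZ
import Pool.Agent.Lib.MP_1a91b9_ntDZ.U9
import Pool.Agent.Lib.MP_1a91b9_ntDZ.U10

/-!
# MP_1a91b9_nt (the discriminant form, fourth part): the law for arbitrary infinite families, the universal family
-/

set_option autoImplicit false

namespace Pool.Agent.Lib.MP_1a91b9_ntDZ

open NumberField IsDedekindDomain
open Pool.Agent.Lib.MP_1a91b9_ntL (crv)
open Pool.Agent.Lib.MP_1a91b9_ntDF (Pf cK tw TowM cst NK Ext DiscLe Hyp)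

/-- The field `K` is a principal ideal domain. -/
private theorem finU_pid2 {K : Type} [Field K] [NumberField K] (hK : Module.finrank ℚ K = 2)
    {E : WeierstrassCurve K} (hΔ : E.Δ ≠ 0) (h1 : E.a₁ = 0) (h3 : E.a₃ = 0) (h6 : E.a₆ = 0) {j D : ℤ}
    (hjD : (j, D) ∈ [(0, -3), (54000, -3), (-12288000, -3), (1728, -4), (287496, -4), (-3375, -7),
      (16581375, -7), (8000, -8), (-32768, -11), (-884736, -19), (-884736000, -43),
      (-147197952000, -67), (-262537412640768000, -163)])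
    (hj : E.c₄ ^ 3 = j * E.Δ) (hD : ∃ s : K, s ^ 2 = D) : IsPrincipalIdealRing (𝓞 K) := by
  obtain ⟨a, ha⟩ : ∃ a, a = E.a₂ := ⟨_, rfl⟩
  obtain ⟨b, hb⟩ : ∃ b, b = E.a₄ := ⟨_, rfl⟩
  have hE : E = crv a b := WeierstrassCurve.ext h1 ha.symm h3 hb.symm h6
  have hΔ' := hΔ
  have hj' := hj
  rw [hE] at hΔ' hj'
  rw [Pool.Agent.Lib.MP_1a91b9_ntY.crv_Δ] at hΔ' hj'
  rw [Pool.Agent.Lib.MP_1a91b9_ntY.crv_c₄] at hj'
  have hE' : b * (a ^ 2 - 4 * b) ≠ 0 := by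
    intro h
    refine hΔ' ?_
    linear_combination 16 * b * h
  have hj2 : 256 * (a ^ 2 - 3 * b) ^ 3 = j * (b ^ 2 * (a ^ 2 - 4 * b)) := by
    have h16 : (16 : K) ≠ 0 := by norm_num
    refine mul_left_cancel₀ h16 ?_
    linear_combination hj'
  have hb0 : b ≠ 0 := left_ne_zero_of_mul hE'
  have hW : Pool.Agent.Lib.MP_1a91b9_ntY.CMK (crv a b) := by
    obtain ⟨s, hs⟩ := hD
    refine ⟨?_, j, D, s, hjD, hs, ?_⟩
    · rw [Pool.Agent.Lib.MP_1a91b9_ntY.crv_Δ]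
      exact mul_ne_zero (mul_ne_zero (by norm_num) (pow_ne_zero 2 hb0)) (right_ne_zero_of_mul hE')
    · refine Pool.Agent.Lib.MP_1a91b9_ntY.hasJ_crv ?_
      linear_combination 16 * hj2
  have hP : Pool.Agent.Lib.MP_1a91b9_ntY.Pt2 (crv a b) := by
    refine ⟨0, ?_⟩
    unfold crv WeierstrassCurve.b₂ WeierstrassCurve.b₄ WeierstrassCurve.b₆
    ring
  exact Pool.Agent.Lib.MP_1a91b9_ntC.pid_of hK hW hP

/-- The field `K` is a principal ideal domain with finitely many units. -/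
private theorem finU_hyp {p : ℕ} {K : Type} [Field K] [NumberField K] {E : WeierstrassCurve K} {F : Type}
    [Field F] [NumberField F] [Algebra K F] (H : Hyp p K E F) :
    IsPrincipalIdealRing (𝓞 K) ∧ Finite (𝓞 K)ˣ := by
  obtain ⟨hK, hΔ, h1, h6, hp, l, hl, hF⟩ := H
  rcases hp with ⟨rfl, h3, j, D, hjD, hj, hD⟩ | ⟨rfl, h2, h4, s, hs⟩
  · have hneg : D < 0 := by
      have h7 := hjD
      simp only [List.mem_cons, Prod.mk.injEq, List.not_mem_nil, or_false] at h7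
      rcases h7 with ⟨-, rfl⟩ | ⟨-, rfl⟩ | ⟨-, rfl⟩ | ⟨-, rfl⟩ | ⟨-, rfl⟩ | ⟨-, rfl⟩ | ⟨-, rfl⟩ |
        ⟨-, rfl⟩ | ⟨-, rfl⟩ | ⟨-, rfl⟩ | ⟨-, rfl⟩ | ⟨-, rfl⟩ | ⟨-, rfl⟩ <;> norm_num
    refine ⟨finU_pid2 hK hΔ h1 h3 h6 hjD hj hD, ?_⟩
    obtain ⟨s, hs⟩ := hD
    exact Pool.Agent.Lib.MP_1a91b9_ntW.J.finite_units hK
      (Pool.Agent.Lib.MP_1a91b9_ntW.J.no_real hs hneg)
  · refine ⟨?_, ?_⟩
    · obtain ⟨e⟩ := Pool.Agent.Lib.MP_1a91b9_ntJ.exists_e6 hK hs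
      obtain ⟨e'⟩ := Pool.Agent.Lib.MP_1a91b9_ntN.exists_iso36
      exact Pool.Agent.Lib.MP_1a91b9_ntMC.pid3
        ((e' : Pool.Agent.Lib.MP_1a91b9_ntT.K ≃+* _).trans e)
    · have hs' : s ^ 2 = ((-3 : ℤ) : K) := by
        rw [hs]
        push_cast
        rfl
      exact Pool.Agent.Lib.MP_1a91b9_ntW.J.finite_units hK
        (Pool.Agent.Lib.MP_1a91b9_ntW.J.no_real hs' (by norm_num))

/-- Monotonicity of the proportion. -/
private theorem finU_mono {α : Type} {w : ℝ} {A B D P P' : α → Prop} (hP : ∀ x, P x → P' x)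
    (h : w ≤ (Nat.card {x : α // A x ∧ B x ∧ D x ∧ P x} : ℝ) / (Nat.card {x : α // A x ∧ B x ∧ D x} : ℝ)) :
    w ≤ (Nat.card {x : α // A x ∧ B x ∧ D x ∧ P' x} : ℝ) / (Nat.card {x : α // A x ∧ B x ∧ D x} : ℝ) := by
  by_cases h0 : Nat.card {x : α // A x ∧ B x ∧ D x} = 0
  · rw [h0, Nat.cast_zero, div_zero] at h ⊢
    exact h
  · have hfin : {x : α | A x ∧ B x ∧ D x}.Finite := Nat.finite_of_card_ne_zero h0
    refine h.trans (div_le_div_of_nonneg_right ?_ (Nat.cast_nonneg _))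
    have h1 : {x : α | A x ∧ B x ∧ D x ∧ P x} ⊆ {x : α | A x ∧ B x ∧ D x ∧ P' x} :=
      fun x hx => ⟨hx.1, hx.2.1, hx.2.2.1, hP x hx.2.2.2⟩
    have h2 : {x : α | A x ∧ B x ∧ D x ∧ P' x}.Finite :=
      hfin.subset fun x hx => ⟨hx.1, hx.2.1, hx.2.2.1⟩
    exact_mod_cast Set.ncard_le_ncard h1 h2

open scoped TensorProduct in
open Classical in
/-- **The two parts.** -/
theorem finU (p : ℕ) (K : Type) [Field K] [NumberField K] (hK : Module.finrank ℚ K = 2)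
    (E : WeierstrassCurve K) (hΔ : E.Δ ≠ 0) (h₁ : E.a₁ = 0) (h₆ : E.a₆ = 0)
    (hE : (p = 2 ∧ E.a₃ = 0 ∧ ∃ j D : ℤ,
        (j, D) ∈ [(0, -3), (54000, -3), (-12288000, -3), (1728, -4), (287496, -4), (-3375, -7),
          (16581375, -7), (8000, -8), (-32768, -11), (-884736, -19), (-884736000, -43),
          (-147197952000, -67), (-262537412640768000, -163)] ∧
        E.c₄ ^ 3 = j * E.Δ ∧ ∃ s : K, s ^ 2 = D) ∨
      (p = 3 ∧ E.a₂ = 0 ∧ E.a₄ = 0 ∧ ∃ s : K, s ^ 2 = -3))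
    (l : ℕ) (hl : l = p ∨ p = 2 ∧ l = 4 ∧ ∃ i : K, i ^ 2 = -1) :
    (∀ (F : Type) [Field F] [NumberField F] [Algebra K F],
      IntermediateField.adjoin K {x : F | ∃ c : K, x ^ l = algebraMap K F c} = ⊤ →
      ∀ (r : ℕ) (T : Set K), 0 ∉ T →
      (∀ δ ∈ T, ∀ δ' ∈ T, δ ≠ δ' → (∀ x : K, x ^ p * δ' ≠ δ) ∧ (T.Finite → Sep p E F δ δ')) →
      ∀ t : ℕ, 0 < t → ∀ C : Set (IntermediateField K (AlgebraicClosure K)),
      (∃ N ∈ C, N ∈ Ext K p r) →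
      (∀ N N' : IntermediateField K (AlgebraicClosure K),
        (∀ v : HeightOneSpectrum (𝓞 K), (p : 𝓞 K) ∈ v.asIdeal →
          Nonempty (v.adicCompletion K ⊗[K] N ≃ₐ[v.adicCompletion K] v.adicCompletion K ⊗[K] N')) →
        N ∈ C → N' ∈ C) →
      ∀ v : ℝ, (v = if T.Infinite then 1 else ∑ j ∈ Finset.Icc t T.ncard, (T.ncard.choose j : ℝ) *
        (cst p K F ^ ((p ^ r - 1) * Module.finrank K F)) ^ j *
          (1 - cst p K F ^ ((p ^ r - 1) * Module.finrank K F)) ^ (T.ncard - j)) →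
      ∀ ε : ℝ, 0 < ε → ∀ᶠ X : ℝ in Filter.atTop, v - ε ≤
        (Nat.card {N : IntermediateField K (AlgebraicClosure K) //
          N ∈ Ext K p r ∧ N ∈ C ∧ DiscLe N X ∧ t ≤ {δ ∈ T | PropM p (tw p E K δ) F N}.encard} : ℝ) /
        (Nat.card {N : IntermediateField K (AlgebraicClosure K) //
          N ∈ Ext K p r ∧ N ∈ C ∧ DiscLe N X} : ℝ)) ∧
    ∃ U : Set K, U.Infinite ∧ 0 ∉ U ∧ (∀ δ ∈ U, ∀ δ' ∈ U, δ ≠ δ' → ∀ x : K, x ^ p * δ' ≠ δ) ∧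
      ∀ (F : Type) [Field F] [NumberField F] [Algebra K F],
      IntermediateField.adjoin K {x : F | ∃ c : K, x ^ l = algebraMap K F c} = ⊤ →
      ∃ S : Set K, S.Finite ∧ ∀ δ ∈ U \ S, PropZ K ((tw p E K δ).baseChange F) := by
  refine ⟨?_, ?_⟩
  · intro F _ _ _ hF r T h0 hT t ht C hC0 hC v hv ε hε
    have H : Hyp p K E F := ⟨hK, hΔ, h₁, h₆, hE, l, hl, hF⟩
    by_cases hTi : T.Infinite
    · obtain ⟨hpi, hfu⟩ := finU_hyp H
      obtain ⟨T', hTT, hTi', hsep⟩ := u10_sep p K E F H hTi h0 fun δ hδ δ' hδ' hne => (hT δ hδ δ' hδ' hne).1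
      rw [if_pos hTi] at hv
      have h1 := (fin2 p K E F H).1 r T' (fun h => h0 (hTT h)) hsep t ht C hC0 hC v
        (by rw [hv, if_pos hTi']) ε hε
      filter_upwards [h1] with X hX
      refine finU_mono (P := fun N : IntermediateField K (AlgebraicClosure K) =>
        (t : ℕ∞) ≤ {δ ∈ T' | PropM p (tw p E K δ) F N}.encard) (fun N hN => ?_) hX
      exact hN.trans (Set.encard_le_encard fun δ hδ => ⟨hTT hδ.1, hδ.2⟩)
    · exact (fin2 p K E F H).1 r T h0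
        (fun δ hδ δ' hδ' hne => (hT δ hδ δ' hδ' hne).2 (Set.not_infinite.1 hTi)) t ht C hC0 hC v hv ε hε
  · have hl' : IntermediateField.adjoin K {x : K | ∃ c : K, x ^ l = algebraMap K K c} = ⊤ := by
      rw [eq_top_iff]
      intro x _
      exact IntermediateField.subset_adjoin K _ ⟨x ^ l, rfl⟩
    obtain ⟨hpi, hfu⟩ := finU_hyp (F := K) (p := p) ⟨hK, hΔ, h₁, h₆, hE, l, hl, hl'⟩
    obtain ⟨U, hU, hU0, hUd, h⟩ := u9_univ p K hK E hΔ h₁ h₆ hE l hl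
    refine ⟨U, hU, hU0, hUd, fun F _ _ _ hF => ?_⟩
    obtain ⟨S, hS, -, hZ⟩ := h F hF
    exact ⟨S, hS, hZ⟩

end Pool.Agent.Lib.MP_1a91b9_ntDZ
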