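import Pool.Agent.Lib.MP_1a91b9_ntDZ.FinU
import Pool.Agent.Lib.MP_1a91b9_ntQH.R4.Bas

/-!
# MP_1a91b9_nt (the discriminant form, fourth part): the curve of rank two over `ℚ(i)`
-/

set_option autoImplicit false

namespace Pool.Agent.Lib.MP_1a91b9_ntDZ

open NumberField IsDedekindDomain
open Pool.Agent.Lib.MP_1a91b9_ntDF (RelBSD tw cst Ext DiscLe)
open Pool.Agent.Lib.MP_1a91b9_ntQH.R4 (Rk2 E2 E2_map rk2_K rk2_up)

open Classical in
/-- The property (A) of `F' / F` for the curve `E` over `K`. -/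
def NoNewV {K : Type} [Field K] (E : WeierstrassCurve K) (F F' : Type) [Field F] [Algebra K F]
    [Field F'] [NumberField F'] [Algebra F F'] : Prop :=
  (∀ x' y' : F', ((E.baseChange F).baseChange F').toAffine.Equation x' y' →
    ∃ x y : F, algebraMap F F' x = x' ∧ algebraMap F F' y = y') ∧
  (Module.finrank K F = 1 →
    (E = ⟨0, 0, 3, 0, 0⟩ →
      (∃ h : ℂ → ℂ, Differentiable ℂ h ∧
        (∀ s : ℂ, 3 / 2 < s.re → h s = ((E.baseChange F).baseChange F').LSeries s) ∧ h 1 ≠ 0) ∧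
      Finite ((E.baseChange F).baseChange F').toAffine.Point) ∧
    (E = ⟨0, 4, 0, 2, 0⟩ ∨ E = ⟨0, 0, 0, -2, 0⟩ ∨ E.a₃ ^ 2 = -3 →
      (∃ h : ℂ → ℂ, Differentiable ℂ h ∧
        (∀ s : ℂ, 3 / 2 < s.re → h s = ((E.baseChange F).baseChange F').LSeries s) ∧
        analyticOrderAt h 1 = 2) ∧
      Module.finrank ℤ ((E.baseChange F).baseChange F').toAffine.Point = 2))

/-- **The property `M` of the extension `N` of `K`**. -/
def PropMV (p : ℕ) {K : Type} [Field K] [NumberField K] (E : WeierstrassCurve K) (F : Type) [Field F]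
    [NumberField F] [Algebra K F] (N : Type) [Field N] [Algebra K N] : Prop :=
  ∀ (M : Type) [Field M] [NumberField M] [Algebra K M] [Algebra F M] [IsScalarTower K F M]
    [Algebra N M] [IsScalarTower K N M],
    IntermediateField.adjoin F (Set.range (algebraMap N M)) = ⊤ →
    Module.finrank F M = Module.finrank K N ∧
    ∀ (F' : Type) [Field F'] [NumberField F'] [Algebra K F'] [Algebra F F'] [IsScalarTower K F F']
      [Algebra F' M] [IsScalarTower F F' M],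
      NoNewV E F F' ∧
      (∃ g : ℂ → ℂ, Differentiable ℂ g ∧ g 1 ≠ 0 ∧ ∀ s : ℂ, 3 / 2 < s.re →
        (E.baseChange F').LSeries s = (E.baseChange F).LSeries s * g s) ∧
      (LNonzero (E.baseChange F) → PropZ K (E.baseChange F')) ∧
      (∀ (F'' : Type) [Field F''] [NumberField F''] [Algebra F F''] [Algebra F' F'']
        [IsScalarTower F F' F''] [Algebra F'' M] [IsScalarTower F' F'' M],
        Module.finrank F' F'' ≠ 1 →
        ∃ S : Finset ℕ, ∀ (q : ℕ) [Fact q.Prime], q ∉ S →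
          RelBSD q (E.baseChange F') ((E.baseChange F').baseChange F'')) ∧
      ∀ e : K, (∃ x : N, x ^ p = algebraMap K N e) → (¬ ∃ y : F', y ^ p = algebraMap K F' e) →
        PropR p E F' e

/-- Order and rank are two over the extensions without new points and new zeros. -/
private theorem finV_up {K : Type} [Field K] [NumberField K] (hK : Module.finrank ℚ K = 2) {i : K}
    (hi : i ^ 2 = -1) {E : WeierstrassCurve K} (hE : E = ⟨0, 0, 0, -2, 0⟩) {F F' : Type} [Field F] [NumberField F]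
    [Algebra K F] [Field F'] [NumberField F'] [Algebra K F'] [Algebra F F'] [IsScalarTower K F F']
    (h1 : Module.finrank K F = 1)
    (hp : ∀ x' y' : F', ((E.baseChange F).baseChange F').toAffine.Equation x' y' →
      ∃ x y : F, algebraMap F F' x = x' ∧ algebraMap F F' y = y')
    (hg : ∃ g : ℂ → ℂ, Differentiable ℂ g ∧ g 1 ≠ 0 ∧ ∀ s : ℂ, 3 / 2 < s.re →
        (E.baseChange F').LSeries s = (E.baseChange F).LSeries s * g s) :
    Rk2 ((E.baseChange F).baseChange F') := by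
  subst hE
  have h2 : Rk2 (E2 K) := rk2_K hK hi
  have h3 : Rk2 (E2 F) :=
    h2.equiv (RingEquiv.ofBijective (algebraMap K F)
      (Module.Free.bijective_algebraMap_of_finrank_eq_one h1))
  have e1 : (⟨0, 0, 0, -2, 0⟩ : WeierstrassCurve K).baseChange F = E2 F := E2_map (algebraMap K F)
  have e2 : (⟨0, 0, 0, -2, 0⟩ : WeierstrassCurve K).baseChange F' = E2 F' := E2_map (algebraMap K F')
  have e3 : (E2 F).baseChange F' = E2 F' := E2_map (algebraMap F F')
  rw [e1] at hp hg ⊢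
  rw [e2, ← e3] at hg
  exact rk2_up h3 hp hg

/-- **The property with the curve of rank two.** -/
private theorem finV_prop {p : ℕ} {K : Type} [Field K] [NumberField K] (hK : Module.finrank ℚ K = 2)
    {E : WeierstrassCurve K} (hi : E = ⟨0, 0, 0, -2, 0⟩ → ∃ i : K, i ^ 2 = -1) {F : Type} [Field F]
    [NumberField F] [Algebra K F] {N : Type} [Field N] [Algebra K N] (h : PropM p E F N) :
    PropMV p E F N := by
  intro M _ _ _ _ _ _ _ hM
  obtain ⟨h1, h2⟩ := h M hM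
  refine ⟨h1, ?_⟩
  intro F' _ _ _ _ _ _ _
  obtain ⟨h3, h4, h5, h6, h7⟩ := h2 F'
  refine ⟨⟨h3.1, fun hF => ⟨(h3.2 hF).1, ?_⟩⟩, h4, h5, h6, h7⟩
  rintro (h8 | h8 | h8)
  · exact (h3.2 hF).2 (Or.inl h8)
  · obtain ⟨i, hi⟩ := hi h8
    exact finV_up hK hi h8 hF h3.1 h4
  · exact (h3.2 hF).2 (Or.inr h8)

/-- The field contains a square root of `-1`. -/
private theorem finV_i {p : ℕ} {K : Type} [Field K] [NumberField K] {E : WeierstrassCurve K} (hΔ : E.Δ ≠ 0)
    (h₁ : E.a₁ = 0) (h₆ : E.a₆ = 0)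
    (hE : (p = 2 ∧ E.a₃ = 0 ∧ ∃ j D : ℤ,
        (j, D) ∈ [(0, -3), (54000, -3), (-12288000, -3), (1728, -4), (287496, -4), (-3375, -7),
          (16581375, -7), (8000, -8), (-32768, -11), (-884736, -19), (-884736000, -43),
          (-147197952000, -67), (-262537412640768000, -163)] ∧
        E.c₄ ^ 3 = j * E.Δ ∧ ∃ s : K, s ^ 2 = D) ∨
      (p = 3 ∧ E.a₂ = 0 ∧ E.a₄ = 0 ∧ ∃ s : K, s ^ 2 = -3)) {δ : K} (hδ : δ ≠ 0)
    (h : tw p E K δ = ⟨0, 0, 0, -2, 0⟩) : ∃ i : K, i ^ 2 = -1 := by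
  rcases hE with ⟨rfl, h3, j, D, hjD, hj, s, hs⟩ | ⟨rfl, h2, h4, -⟩
  · have h2 : E.a₂ = 0 := by
      have h5 := congrArg WeierstrassCurve.a₂ h
      have h6 : E.a₂ * δ ^ (2 / 2) = 0 := h5
      exact (mul_eq_zero.1 h6).resolve_right (pow_ne_zero _ hδ)
    have hc : E.c₄ ^ 3 = 1728 * E.Δ := by
      unfold WeierstrassCurve.c₄ WeierstrassCurve.Δ WeierstrassCurve.b₂ WeierstrassCurve.b₄
        WeierstrassCurve.b₆ WeierstrassCurve.b₈
      rw [h₁, h2, h3, h₆]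
      ring
    have hj1 : ((j : ℤ) : K) = ((1728 : ℤ) : K) := by
      push_cast
      exact mul_right_cancel₀ hΔ (hj.symm.trans hc)
    have hj2 : j = 1728 := by exact_mod_cast hj1
    subst hj2
    have hD : D = -4 := by
      simp only [List.mem_cons, Prod.mk.injEq, List.not_mem_nil, or_false] at hjD
      omega
    subst hD
    refine ⟨s / 2, ?_⟩
    rw [div_pow, hs]
    push_cast
    norm_num
  · exfalso
    have h5 := congrArg WeierstrassCurve.a₄ h
    have h6 : E.a₄ * δ ^ (4 / 3) = -2 := h5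
    rw [h4, zero_mul] at h6
    norm_num at h6

/-- Monotonicity of the proportion. -/
private theorem finV_mono {α : Type} {w : ℝ} {A B D P P' : α → Prop} (hP : ∀ x, P x → P' x)
    (h : w ≤ (Nat.card {x : α // A x ∧ B x ∧ D x ∧ P x} : ℝ) / (Nat.card {x : α // A x ∧ B x ∧ D x} : ℝ)) :
    w ≤ (Nat.card {x : α // A x ∧ B x ∧ D x ∧ P' x} : ℝ) / (Nat.card {x : α // A x ∧ B x ∧ D x} : ℝ) := by
  by_cases h0 : Nat.card {x : α // A x ∧ B x ∧ D x} = 0
  · rw [h0, Nat.cast_zero, div_zero] at h ⊢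
    exact h
  · have hfin : {x : α | A x ∧ B x ∧ D x}.Finite := Nat.finite_of_card_ne_zero h0
    refine h.trans (div_le_div_of_nonneg_right ?_ (Nat.cast_nonneg _))
    have h1 : {x : α | A x ∧ B x ∧ D x ∧ P x} ⊆ {x : α | A x ∧ B x ∧ D x ∧ P' x} :=
      fun x hx => ⟨hx.1, hx.2.1, hx.2.2.1, hP x hx.2.2.2⟩
    have h2 : {x : α | A x ∧ B x ∧ D x ∧ P' x}.Finite :=
      hfin.subset fun x hx => ⟨hx.1, hx.2.1, hx.2.2.1⟩
    exact_mod_cast Set.ncard_le_ncard h1 h2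

open scoped TensorProduct in
open Classical in
/-- **The two parts.** -/
theorem finV (p : ℕ) (K : Type) [Field K] [NumberField K] (hK : Module.finrank ℚ K = 2)
    (E : WeierstrassCurve K) (hΔ : E.Δ ≠ 0) (h₁ : E.a₁ = 0) (h₆ : E.a₆ = 0)
    (hE : (p = 2 ∧ E.a₃ = 0 ∧ ∃ j D : ℤ,
        (j, D) ∈ [(0, -3), (54000, -3), (-12288000, -3), (1728, -4), (287496, -4), (-3375, -7),
          (16581375, -7), (8000, -8), (-32768, -11), (-884736, -19), (-884736000, -43),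
          (-147197952000, -67), (-262537412640768000, -163)] ∧
        E.c₄ ^ 3 = j * E.Δ ∧ ∃ s : K, s ^ 2 = D) ∨
      (p = 3 ∧ E.a₂ = 0 ∧ E.a₄ = 0 ∧ ∃ s : K, s ^ 2 = -3))
    (l : ℕ) (hl : l = p ∨ p = 2 ∧ l = 4 ∧ ∃ i : K, i ^ 2 = -1) :
    (∀ (F : Type) [Field F] [NumberField F] [Algebra K F],
      IntermediateField.adjoin K {x : F | ∃ c : K, x ^ l = algebraMap K F c} = ⊤ →
      ∀ (r : ℕ) (T : Set K), 0 ∉ T →
      (∀ δ ∈ T, ∀ δ' ∈ T, δ ≠ δ' → (∀ x : K, x ^ p * δ' ≠ δ) ∧ (T.Finite → Sep p E F δ δ')) →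
      ∀ t : ℕ, 0 < t → ∀ C : Set (IntermediateField K (AlgebraicClosure K)),
      (∃ N ∈ C, N ∈ Ext K p r) →
      (∀ N N' : IntermediateField K (AlgebraicClosure K),
        (∀ v : HeightOneSpectrum (𝓞 K), (p : 𝓞 K) ∈ v.asIdeal →
          Nonempty (v.adicCompletion K ⊗[K] N ≃ₐ[v.adicCompletion K] v.adicCompletion K ⊗[K] N')) →
        N ∈ C → N' ∈ C) →
      ∀ v : ℝ, (v = if T.Infinite then 1 else ∑ j ∈ Finset.Icc t T.ncard, (T.ncard.choose j : ℝ) *
        (cst p K F ^ ((p ^ r - 1) * Module.finrank K F)) ^ j *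
          (1 - cst p K F ^ ((p ^ r - 1) * Module.finrank K F)) ^ (T.ncard - j)) →
      ∀ ε : ℝ, 0 < ε → ∀ᶠ X : ℝ in Filter.atTop, v - ε ≤
        (Nat.card {N : IntermediateField K (AlgebraicClosure K) //
          N ∈ Ext K p r ∧ N ∈ C ∧ DiscLe N X ∧ t ≤ {δ ∈ T | PropMV p (tw p E K δ) F N}.encard} : ℝ) /
        (Nat.card {N : IntermediateField K (AlgebraicClosure K) //
          N ∈ Ext K p r ∧ N ∈ C ∧ DiscLe N X} : ℝ)) ∧
    ∃ U : Set K, U.Infinite ∧ 0 ∉ U ∧ (∀ δ ∈ U, ∀ δ' ∈ U, δ ≠ δ' → ∀ x : K, x ^ p * δ' ≠ δ) ∧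
      ∀ (F : Type) [Field F] [NumberField F] [Algebra K F],
      IntermediateField.adjoin K {x : F | ∃ c : K, x ^ l = algebraMap K F c} = ⊤ →
      ∃ S : Set K, S.Finite ∧ ∀ δ ∈ U \ S, PropZ K ((tw p E K δ).baseChange F) := by
  obtain ⟨hA, hB⟩ := finU p K hK E hΔ h₁ h₆ hE l hl
  refine ⟨fun F _ _ _ hF r T h0 hT t ht C hC0 hC v hv ε hε => ?_, hB⟩
  filter_upwards [hA F hF r T h0 hT t ht C hC0 hC v hv ε hε] with X hX
  refine finV_mono (P := fun N : IntermediateField K (AlgebraicClosure K) =>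
    (t : ℕ∞) ≤ {δ ∈ T | PropM p (tw p E K δ) F N}.encard) (fun N hN => ?_) hX
  refine hN.trans (Set.encard_le_encard fun δ hδ => ⟨hδ.1, ?_⟩)
  have hδ0 : δ ≠ 0 := fun h => h0 (h ▸ hδ.1)
  exact finV_prop hK (fun h => finV_i hΔ h₁ h₆ hE hδ0 h) hδ.2

end Pool.Agent.Lib.MP_1a91b9_ntDZ
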