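import Pool.Agent.Lib.MP_1a91b9_ntDF.DC
import Pool.Agent.Lib.MP_1a91b9_ntMQ.UW6
import Pool.Agent.Lib.MP_1a91b9_ntMC.A2

/-!
# MP_1a91b9_nt (the discriminant form, third part): the intermediate fields are generated by roots
-/

set_option autoImplicit false

namespace Pool.Agent.Lib.MP_1a91b9_ntDZ

open NumberField
open Pool.Agent.Lib.MP_1a91b9_ntDF (NK)

/-- The intermediate fields are generated over `K` by roots. -/
private theorem Z2_gen {K : Type} [Field K] {F : Type} [Field F] [Algebra K F] {l : ℕ}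
    (hF : IntermediateField.adjoin K {x : F | ∃ c : K, x ^ l = algebraMap K F c} = ⊤)
    (F' : Type) [Field F'] [Algebra K F'] [Algebra F F'] [IsScalarTower K F F'] (S : Set F')
    (hS : ∀ y ∈ S, ∃ c : K, y ^ l = algebraMap K F' c) (h : IntermediateField.adjoin F S = ⊤) :
    IntermediateField.adjoin K {x : F' | ∃ c : K, x ^ l = algebraMap K F' c} = ⊤ := by
  obtain ⟨A, hA⟩ : ∃ A : IntermediateField K F', A =
      IntermediateField.adjoin K {x : F' | ∃ c : K, x ^ l = algebraMap K F' c} := ⟨_, rfl⟩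
  rw [← hA, eq_top_iff]
  have h1 : ∀ z : F, algebraMap F F' z ∈ A := by
    intro z
    have hz : z ∈ IntermediateField.adjoin K {x : F | ∃ c : K, x ^ l = algebraMap K F c} := by
      rw [hF]
      trivial
    refine IntermediateField.adjoin_induction (F := K) (p := fun z _ => algebraMap F F' z ∈ A)
      ?_ ?_ ?_ ?_ ?_ hz
    · rintro x ⟨c, hc⟩
      rw [hA]
      refine IntermediateField.subset_adjoin K _ ⟨c, ?_⟩
      rw [← map_pow, hc, ← IsScalarTower.algebraMap_apply]
    · intro c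
      rw [← IsScalarTower.algebraMap_apply K F F']
      exact A.algebraMap_mem c
    · intro x y _ _ hx hy
      rw [map_add]
      exact A.add_mem hx hy
    · intro x _ hx
      rw [map_inv₀]
      exact A.inv_mem hx
    · intro x y _ _ hx hy
      rw [map_mul]
      exact A.mul_mem hx hy
  intro z _
  have hz : z ∈ IntermediateField.adjoin F S := by
    rw [h]
    trivial
  refine IntermediateField.adjoin_induction (F := F) (p := fun z _ => z ∈ A)
    ?_ ?_ ?_ ?_ ?_ hz
  · intro y hy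
    rw [hA]
    exact IntermediateField.subset_adjoin K _ (hS y hy)
  · exact h1
  · intro x y _ _ hx hy
    exact A.add_mem hx hy
  · intro x _ hx
    exact A.inv_mem hx
  · intro x y _ _ hx hy
    exact A.mul_mem hx hy

/-- **`p = 2`.** (`nk_kum`, `kum_push`, `MQx.inter` with `s = univ`: `F'` is generated over `F` by elements `y` with
`y² = ∏ d i`, so over `K` by these and the images of the generators of `F`; `y ^ 4 = c²` if `l = 4`. Model:
`q3_gen` in `ntDT/Q3`.) -/
theorem gen_two {K : Type} [Field K] [NumberField K] (l : ℕ) (hl : l = 2 ∨ l = 4)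
    (F : Type) [Field F] [NumberField F] [Algebra K F]
    (hF : IntermediateField.adjoin K {x : F | ∃ c : K, x ^ l = algebraMap K F c} = ⊤) {r : ℕ}
    {d : Fin r → K} (hd : ∀ i, d i ≠ 0) (M : Type) [Field M] [NumberField M] [Algebra K M]
    [Algebra F M] [IsScalarTower K F M] [Algebra (NK 2 d) M] [IsScalarTower K (NK 2 d) M]
    (hM : IntermediateField.adjoin F (Set.range (algebraMap (NK 2 d) M)) = ⊤)
    (F' : Type) [Field F'] [NumberField F'] [Algebra K F'] [Algebra F F'] [IsScalarTower K F F']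
    [Algebra F' M] [IsScalarTower F F' M] :
    IntermediateField.adjoin K {x : F' | ∃ c : K, x ^ l = algebraMap K F' c} = ⊤ := by
  have hζ : IsPrimitiveRoot (-1 : K) 2 := by
    have h1 : (-1 : K) ≠ 1 := by
      intro h
      have h2 : (2 : K) ≠ 0 := two_ne_zero
      apply h2
      linear_combination -h
    have h3 : orderOf (-1 : K) = 2 := orderOf_eq_prime (by norm_num) h1
    rw [← h3]
    exact IsPrimitiveRoot.orderOf _
  obtain ⟨-, -, -, y, hy⟩ := Pool.Agent.Lib.MP_1a91b9_ntDF.nk_kum hζ hd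
  obtain ⟨h1, h2⟩ := Pool.Agent.Lib.MP_1a91b9_ntDF.kum_push hy hM
  have hx : Pool.Agent.Lib.MP_1a91b9_ntMQ.MQx (fun i => algebraMap K F (d i))
      (fun i => algebraMap (NK 2 d) M (y i)) Finset.univ := by
    refine ⟨fun i _ => h1 i, ?_⟩
    rw [Finset.coe_univ, Set.image_univ]
    exact h2
  have h3 := hx.inter (F' := F') (fun i _ => (map_ne_zero _).2 (hd i))
  refine Z2_gen hF F' _ ?_ h3
  rintro z ⟨J, -, hz⟩
  rw [← map_prod, ← IsScalarTower.algebraMap_apply] at hz
  rcases hl with rfl | rfl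
  · exact ⟨_, hz⟩
  · refine ⟨(∏ i ∈ J, d i) ^ 2, ?_⟩
    rw [map_pow, ← hz]
    ring

/-- **`p = 3`.** (`MCx.inter'` of `ntMC/A2`; model: `q3_gen` in `ntDT/Q3`.) -/
theorem gen_three {K : Type} [Field K] [NumberField K] {w : K} (hw : IsPrimitiveRoot w 3)
    (F : Type) [Field F] [NumberField F] [Algebra K F]
    (hF : IntermediateField.adjoin K {x : F | ∃ c : K, x ^ 3 = algebraMap K F c} = ⊤) {r : ℕ}
    {d : Fin r → K} (hd : ∀ i, d i ≠ 0) (M : Type) [Field M] [NumberField M] [Algebra K M]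
    [Algebra F M] [IsScalarTower K F M] [Algebra (NK 3 d) M] [IsScalarTower K (NK 3 d) M]
    (hM : IntermediateField.adjoin F (Set.range (algebraMap (NK 3 d) M)) = ⊤)
    (F' : Type) [Field F'] [NumberField F'] [Algebra K F'] [Algebra F F'] [IsScalarTower K F F']
    [Algebra F' M] [IsScalarTower F F' M] :
    IntermediateField.adjoin K {x : F' | ∃ c : K, x ^ 3 = algebraMap K F' c} = ⊤ := by
  have hw' : IsPrimitiveRoot (algebraMap K F w) 3 := hw.map_of_injective (algebraMap K F).injective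
  obtain ⟨-, -, -, y, hy⟩ := Pool.Agent.Lib.MP_1a91b9_ntDF.nk_kum hw hd
  obtain ⟨h1, h2⟩ := Pool.Agent.Lib.MP_1a91b9_ntDF.kum_push hy hM
  have hx : Pool.Agent.Lib.MP_1a91b9_ntMC.MCx (fun i => algebraMap K F (d i))
      (fun i => algebraMap (NK 3 d) M (y i)) := ⟨h1, h2⟩
  have h3 := hx.inter' hw' (fun i => (map_ne_zero _).2 (hd i)) F'
  refine Z2_gen hF F' _ ?_ h3
  rintro z ⟨χ, hz⟩
  refine ⟨Pool.Agent.Lib.MP_1a91b9_ntMC.chp χ d, ?_⟩
  rw [hz, IsScalarTower.algebraMap_apply K F F']
  congr 1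
  exact Pool.Agent.Lib.MP_1a91b9_ntMC.chp_map (algebraMap K F : K →* F) χ d

end Pool.Agent.Lib.MP_1a91b9_ntDZ
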