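import Pool.Agent.Lib.MP_1a91b9_ntDZ.Z1
import Pool.Agent.Lib.MP_1a91b9_ntDF.DC
import Pool.Agent.Lib.MP_1a91b9_ntDF.D3a
import Pool.Agent.Lib.MP_1a91b9_ntDF.T3a

/-!
# MP_1a91b9_nt (the discriminant form, third part): the property `R` with the property `Z` of every twist
-/

set_option autoImplicit false

namespace Pool.Agent.Lib.MP_1a91b9_ntDZ

open NumberField
open Pool.Agent.Lib.MP_1a91b9_ntJ (TowP towP_vc)
open Pool.Agent.Lib.MP_1a91b9_ntDF (NK TowM tw pw nk_kum kum_push kum_class)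

/-- **`p = 2`.** -/
theorem propR_two {K : Type} [Field K] [NumberField K] {E : WeierstrassCurve K} {F : Type} [Field F]
    [NumberField F] [Algebra K F] {e : K} (h : Pool.Agent.Lib.MP_1a91b9_ntDF.PropR 2 E F e) :
    PropR 2 E F e := by
  obtain ⟨S, hS⟩ := h
  refine ⟨fun i hi hi2 => propZ_of ⟨S, fun q _ hq k N L M _ _ _ _ _ _ _ _ _ _ _ _ hM hR W C hC =>
    (hS q hq k L M hM fun i' hi' hi2' => ?_).1 i hi hi2 N W C hC⟩,
    S, fun q _ hq k L M _ _ _ _ _ _ _ _ _ hM hR => (hS q hq k L M hM hR).2⟩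
  rw [show i' = i by omega]
  exact hR

private theorem Z3_tw {K : Type} [Field K] {E : WeierstrassCurve K}
    (hE : E.a₁ = 0 ∧ E.a₂ = 0 ∧ E.a₄ = 0 ∧ E.a₆ = 0) (F : Type) [Field F] [Algebra K F] (e : K) :
    tw 3 E F e = Pool.Agent.Lib.MP_1a91b9_ntMC.Fin.tw E F e := by
  unfold tw Pool.Agent.Lib.MP_1a91b9_ntMC.Fin.tw
  rw [hE.2.1, hE.2.2.1, zero_mul, zero_mul, map_zero, show 3 / 3 = 1 from rfl, pow_one]

/-- **`p = 3`.** -/
theorem propR_three {K : Type} [Field K] [NumberField K] {w : K} (hw : IsPrimitiveRoot w 3)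
    {E : WeierstrassCurve K} (hE : E.a₁ = 0 ∧ E.a₂ = 0 ∧ E.a₄ = 0 ∧ E.a₆ = 0) {F : Type} [Field F]
    [NumberField F] [Algebra K F] {r : ℕ} {d : Fin r → K} (hd : ∀ i, d i ≠ 0) (hT : TowM E F d)
    (M : Type) [Field M] [NumberField M] [Algebra K M] [Algebra F M] [IsScalarTower K F M]
    [Algebra (NK 3 d) M] [IsScalarTower K (NK 3 d) M]
    (hM : IntermediateField.adjoin F (Set.range (algebraMap (NK 3 d) M)) = ⊤)
    (F' : Type) [Field F'] [NumberField F'] [Algebra K F'] [Algebra F F'] [IsScalarTower K F F']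
    [Algebra F' M] [IsScalarTower F F' M] {e : K}
    (hx : ∃ x : NK 3 d, x ^ 3 = algebraMap K (NK 3 d) e)
    (hne : ¬ ∃ y : F', y ^ 3 = algebraMap K F' e)
    (hR : Pool.Agent.Lib.MP_1a91b9_ntDF.PropR 3 E F' e) : PropR 3 E F' e := by
  obtain ⟨-, -, -, y, hy⟩ := nk_kum hw hd
  obtain ⟨h1, h2⟩ := kum_push hy hM
  obtain ⟨x, hx⟩ := hx
  obtain ⟨χ, z, rfl⟩ := kum_class hw hd hy hx
  have hz : z ≠ 0 := by
    rintro rfl
    refine hne ⟨0, ?_⟩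
    rw [zero_pow three_ne_zero, zero_pow three_ne_zero, zero_mul, map_zero]
  have hne' : ¬ ∃ y : F', y ^ 3 = algebraMap K F' (pw d χ) := by
    rintro ⟨t, ht⟩
    refine hne ⟨algebraMap K F' z * t, ?_⟩
    rw [mul_pow, ht, map_mul, map_pow]
  obtain ⟨t1, t2⟩ := hT M _ h1 h2 F' χ hne'
  have e1 : z ^ 3 * pw d χ = pw d χ * z ^ 3 := mul_comm _ _
  have e2 : (z ^ 3 * pw d χ) ^ 2 = pw d χ ^ 2 * (z ^ 2) ^ 3 := by ring
  obtain ⟨C₁, hC₁⟩ := Pool.Agent.Lib.MP_1a91b9_ntDF.M3.tw_smul E F' (e := pw d χ) hz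
  obtain ⟨C₂, hC₂⟩ := Pool.Agent.Lib.MP_1a91b9_ntDF.M3.tw_smul E F' (e := pw d χ ^ 2)
    (pow_ne_zero 2 hz)
  rw [← Z3_tw hE, ← Z3_tw hE, ← e1] at hC₁
  rw [← Z3_tw hE, ← Z3_tw hE, ← e2] at hC₂
  have z1 := propZ_of (towP_vc hC₁ t1)
  have z2 := propZ_of (towP_vc hC₂ t2)
  obtain ⟨S, hS⟩ := hR
  refine ⟨fun i hi hi3 => ?_, S, fun q _ hq k L M _ _ _ _ _ _ _ _ _ hM hR =>
    (hS q hq k L M hM hR).2⟩
  have hi' : i = 1 ∨ i = 2 := by omega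
  rcases hi' with rfl | rfl
  · rw [pow_one]
    exact z1
  · exact z2

end Pool.Agent.Lib.MP_1a91b9_ntDZ
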