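import Pool.Agent.Lib.MP_1a91b9_ntDZ.Z1
import Pool.Agent.Lib.MP_1a91b9_ntDZ.Z2
import Pool.Agent.Lib.MP_1a91b9_ntDZ.Z3
import Pool.Agent.Lib.MP_1a91b9_ntDF.D2
import Pool.Agent.Lib.MP_1a91b9_ntDF.D3

/-!
# MP_1a91b9_nt (the discriminant form, third part): the property `M` with the clause on the rank zero
-/

set_option autoImplicit false

namespace Pool.Agent.Lib.MP_1a91b9_ntDZ

open NumberField
open Pool.Agent.Lib.MP_1a91b9_ntDF (NK TowM)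

private theorem Z4_mul {F F' : Type} [Field F] [NumberField F] [Field F'] [NumberField F']
    {W : WeierstrassCurve F} {W' : WeierstrassCurve F'} (hL : LNonzero W)
    (h : ∃ g : ℂ → ℂ, Differentiable ℂ g ∧ g 1 ≠ 0 ∧ ∀ s : ℂ, 3 / 2 < s.re →
      W'.LSeries s = W.LSeries s * g s) : LNonzero W' := by
  obtain ⟨f, hf, hfs, hf1⟩ := hL
  obtain ⟨g, hg, hg1, hgs⟩ := h
  refine ⟨fun s => f s * g s, hf.mul hg, fun s hs => ?_, mul_ne_zero hf1 hg1⟩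
  show f s * g s = _
  rw [hgs s hs, hfs s hs]

private theorem Z4_zeta {K : Type} [Field K] [NumberField K] (h3 : ∃ s : K, s ^ 2 = -3) :
    ∃ z : K, IsPrimitiveRoot z 3 := by
  obtain ⟨z, hz⟩ : ∃ z : K, z ^ 2 + z + 1 = 0 := by
    obtain ⟨s, hs⟩ := h3
    refine ⟨(-1 + s) / 2, ?_⟩
    field_simp
    linear_combination hs
  have hz1 : z ≠ 1 := by
    rintro rfl
    have h3 : (3 : K) ≠ 0 := by norm_num
    apply h3
    linear_combination hz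
  have hz3 : z ^ 3 = 1 := by linear_combination (z - 1) * hz
  refine ⟨z, ?_⟩
  rw [← orderOf_eq_prime hz3 hz1]
  exact IsPrimitiveRoot.orderOf z

/-- **`p = 2`.** (`d2`; the new clause: if `h` continues the L-series over `F` then `h * g` that over `F'`, `g` from
the second part of `PropM`; `gen_two`, `z_two`.) -/
theorem d2Z (K : Type) [Field K] [NumberField K] (hK : Module.finrank ℚ K = 2)
    (E : WeierstrassCurve K) (hE : E.a₁ = 0 ∧ E.a₃ = 0 ∧ E.a₆ = 0) (hΔ : E.Δ ≠ 0) (j D : ℤ)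
    (hjD : (j, D) ∈ [(0, -3), (54000, -3), (-12288000, -3), (1728, -4), (287496, -4), (-3375, -7),
      (16581375, -7), (8000, -8), (-32768, -11), (-884736, -19), (-884736000, -43),
      (-147197952000, -67), (-262537412640768000, -163)])
    (hj : E.c₄ ^ 3 = j * E.Δ) (hD : ∃ s : K, s ^ 2 = D)
    (l : ℕ) (hl : l = 2 ∨ l = 4 ∧ ∃ i : K, i ^ 2 = -1)
    (F : Type) [Field F] [NumberField F] [Algebra K F]
    (hF : IntermediateField.adjoin K {x : F | ∃ c : K, x ^ l = algebraMap K F c} = ⊤) {r : ℕ}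
    {d : Fin r → K} (hd : ∀ i, d i ≠ 0) (h : Pool.Agent.Lib.MP_1a91b9_ntMQ.Fin.PropMF E F d) :
    Module.finrank K (NK 2 d) = 2 ^ r ∧ PropM 2 E F (NK 2 d) := by
  obtain ⟨hfin, hM⟩ := Pool.Agent.Lib.MP_1a91b9_ntDF.d2 E hE F hd h
  refine ⟨hfin, ?_⟩
  intro M _ _ _ _ _ _ _ hMF
  obtain ⟨h1, h2⟩ := hM M hMF
  refine ⟨h1, fun F' _ _ _ _ _ _ _ => ?_⟩
  obtain ⟨c1, c2, c3, c4⟩ := h2 F'
  refine ⟨c1, c2, fun hL => ?_, c3, fun e hx hne => propR_two (c4 e hx hne)⟩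
  have hF' := gen_two l (hl.imp id fun h => h.1) F hF hd M hMF F'
  exact z_two K hK E hE hΔ j D hjD hj hD l hl F' hF' (Z4_mul hL c2)

/-- **`p = 3`.** (`d3`, `gen_three`, `z_three`.) -/
theorem d3Z (K : Type) [Field K] [NumberField K] (hK : Module.finrank ℚ K = 2)
    (h3 : ∃ s : K, s ^ 2 = -3) (E : WeierstrassCurve K)
    (hE : E.a₁ = 0 ∧ E.a₂ = 0 ∧ E.a₄ = 0 ∧ E.a₆ = 0) (hΔ : E.Δ ≠ 0) (F : Type) [Field F]
    [NumberField F] [Algebra K F]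
    (hF : IntermediateField.adjoin K {x : F | ∃ c : K, x ^ 3 = algebraMap K F c} = ⊤) {r : ℕ}
    {d : Fin r → K} (hd : ∀ i, d i ≠ 0) (h : Pool.Agent.Lib.MP_1a91b9_ntMC.Fin.PropM E F d)
    (hT : TowM E F d) : Module.finrank K (NK 3 d) = 3 ^ r ∧ PropM 3 E F (NK 3 d) := by
  obtain ⟨hfin, hM⟩ := Pool.Agent.Lib.MP_1a91b9_ntDF.d3 h3 E hE F hd h hT
  refine ⟨hfin, ?_⟩
  obtain ⟨w, hw⟩ := Z4_zeta h3
  intro M _ _ _ _ _ _ _ hMF
  obtain ⟨h1, h2⟩ := hM M hMF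
  refine ⟨h1, fun F' _ _ _ _ _ _ _ => ?_⟩
  obtain ⟨c1, c2, c3, c4⟩ := h2 F'
  refine ⟨c1, c2, fun hL => ?_, c3,
    fun e hx hne => propR_three hw hE hd hT M hMF F' hx hne (c4 e hx hne)⟩
  have hF' := gen_three hw F hF hd M hMF F'
  exact z_three K hK h3 E hE hΔ F' hF' (Z4_mul hL c2)

end Pool.Agent.Lib.MP_1a91b9_ntDZ
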