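import Mathlib

/-!
# MP_1a91b9_nt (the discriminant form, third part): infinite independent sets
-/

set_option autoImplicit false

namespace Pool.Agent.Lib.MP_1a91b9_ntDZ

/-- **Infinite independent sets.** (A maximal independent subset `T` of `A`, by Zorn's lemma; if `T` is finite then `A`
is contained in `T` and the union of the finite sets of the neighbours.) -/
theorem ind_inf {α : Type} (A : Set α) (hA : A.Infinite) (R : α → α → Prop)
    (hR : ∀ a ∈ A, {b ∈ A | R a b ∨ R b a}.Finite) :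
    ∃ T ⊆ A, T.Infinite ∧ ∀ a ∈ T, ∀ b ∈ T, a ≠ b → ¬ R a b := by
  classical
  obtain ⟨T, hT⟩ := zorn_subset {T : Set α | T ⊆ A ∧ ∀ a ∈ T, ∀ b ∈ T, a ≠ b → ¬ R a b} (by
    intro c hc hch
    refine ⟨⋃₀ c, ⟨Set.sUnion_subset fun s hs => (hc hs).1, ?_⟩, fun s hs => Set.subset_sUnion_of_mem hs⟩
    rintro a ⟨s, hs, ha⟩ b ⟨t, ht, hb⟩ hab
    rcases hch.total hs ht with h | h
    · exact (hc ht).2 a (h ha) b hb hab
    · exact (hc hs).2 a ha b (h hb) hab)
  obtain ⟨hTA, hTR⟩ := hT.prop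
  refine ⟨T, hTA, fun hfin => ?_, hTR⟩
  apply hA
  have hU : (T ∪ ⋃ a ∈ T, {b ∈ A | R a b ∨ R b a}).Finite :=
    hfin.union (hfin.biUnion fun a ha => hR a (hTA ha))
  refine hU.subset fun x hx => ?_
  by_contra hxU
  rw [Set.mem_union, not_or] at hxU
  obtain ⟨hxT, hxN⟩ := hxU
  have hxN' : ∀ a ∈ T, ¬ R a x ∧ ¬ R x a := fun a ha => by
    refine not_or.1 fun h => hxN ?_
    exact Set.mem_biUnion ha ⟨hx, h⟩
  have hmem : insert x T ∈ {T : Set α | T ⊆ A ∧ ∀ a ∈ T, ∀ b ∈ T, a ≠ b → ¬ R a b} := by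
    refine ⟨Set.insert_subset hx hTA, ?_⟩
    rintro a (rfl | ha) b (rfl | hb) hab
    · exact absurd rfl hab
    · exact (hxN' b hb).2
    · exact (hxN' a ha).1
    · exact hTR a ha b hb hab
  have h1 : insert x T ⊆ T := hT.le_of_ge hmem (Set.subset_insert x T)
  exact hxT (h1 (Set.mem_insert x T))

end Pool.Agent.Lib.MP_1a91b9_ntDZ
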