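import Pool.Agent.Lib.MP_1a91b9_ntDF.D0

/-!
# MP_1a91b9_nt (the discriminant form, third part): finitely many elements become powers
-/

set_option autoImplicit false

namespace Pool.Agent.Lib.MP_1a91b9_ntDZ

open NumberField
open Pool.Agent.Lib.MP_1a91b9_ntDF (Pf)

/-- Two elements without `p`-th powers in the same class modulo the `p`-th powers differ by a unit. -/
private theorem Z7b_unit {K : Type} [Field K] [NumberField K] [IsPrincipalIdealRing (𝓞 K)] {p : ℕ}
    {d d' : 𝓞 K} (hd : Pf p d) (hd' : Pf p d') {z : K} (h : (d : K) = z ^ p * (d' : K)) :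
    ∃ u : (𝓞 K)ˣ, d = u * d' := by
  obtain ⟨a, b, hab, hz⟩ := IsFractionRing.exists_reduced_fraction (A := 𝓞 K) z
  have hb0 : ((b : 𝓞 K) : K) ≠ 0 := fun h0 => nonZeroDivisors.ne_zero b.2 (RingOfIntegers.ext h0)
  have hz' : z = ((a : 𝓞 K) : K) / ((b : 𝓞 K) : K) := by
    rw [← hz]
    exact IsFractionRing.mk'_eq_div (A := 𝓞 K) (K := K) b
  have h1 : (b : 𝓞 K) ^ p * d = a ^ p * d' := by
    refine FaithfulSMul.algebraMap_injective (𝓞 K) K ?_
    rw [map_mul, map_pow, map_mul, map_pow]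
    have h2 : (d : K) = (((a : 𝓞 K) : K) / ((b : 𝓞 K) : K)) ^ p * (d' : K) := by rw [← hz']; exact h
    have h3 : ((b : 𝓞 K) : K) ^ p * (d : K) = ((a : 𝓞 K) : K) ^ p * (d' : K) := by
      rw [h2, div_pow]
      field_simp
    exact h3
  have hc : IsRelPrime (a ^ p) ((b : 𝓞 K) ^ p) := hab.pow
  have ha : IsUnit a := by
    refine hd a (hc.dvd_of_dvd_mul_left ?_)
    rw [h1]
    exact dvd_mul_right _ _
  have hb : IsUnit (b : 𝓞 K) := by
    refine hd' b (hc.symm.dvd_of_dvd_mul_left ?_)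
    rw [← h1]
    exact dvd_mul_right _ _
  obtain ⟨u, hu⟩ := ha
  obtain ⟨w, hw⟩ := hb
  refine ⟨u ^ p * (w ^ p)⁻¹, ?_⟩
  rw [← hu, ← hw] at h1
  have h4 : ((w ^ p : (𝓞 K)ˣ) : 𝓞 K) * d = ((u ^ p : (𝓞 K)ˣ) : 𝓞 K) * d' := by
    rw [Units.val_pow_eq_pow_val, Units.val_pow_eq_pow_val]
    exact h1
  rw [Units.val_mul, mul_comm ((u ^ p : (𝓞 K)ˣ) : 𝓞 K), mul_assoc, ← h4, ← mul_assoc,
    Units.inv_mul, one_mul]

/-- **Finitely many elements become powers over `F`**, `p` an odd prime number or `2`. (Let `x ^ p = κ d` with `x` in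
`F`. There are finitely many fields between `K` and `F`. If `K(x) = K(x')` then `κ d' = (κ d) ^ j z ^ p` with
`0 ≤ j < p`, `z` in `K`, by Kummer theory (the conjugates of `x` are `ζ ^ i x`, if `x` is not in `K`), so `d'` is in
one of finitely many classes modulo the `p`-th powers of `K*`; two `p`-free elements in the same class differ by a
unit as `𝓞 K` is a principal ideal domain, and there are finitely many units.) -/
theorem fin_cls {K : Type} [Field K] [NumberField K] {p : ℕ} [Fact p.Prime] {ζ : K}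
    (hζ : IsPrimitiveRoot ζ p) [IsPrincipalIdealRing (𝓞 K)] [Finite (𝓞 K)ˣ] (F : Type) [Field F]
    [NumberField F] [Algebra K F] {κ : K} (hκ : κ ≠ 0) :
    {d : 𝓞 K | Pf p d ∧ ∃ x : F, x ^ p = algebraMap K F (κ * (d : K))}.Finite := by
  classical
  have hp0 : p ≠ 0 := (Fact.out : p.Prime).ne_zero
  have : IsAlgClosure K (AlgebraicClosure F) := ⟨inferInstance, Algebra.IsAlgebraic.trans K F _⟩
  have : Normal K (AlgebraicClosure F) := IsAlgClosure.normal K _
  obtain ⟨L, hL⟩ : ∃ L : IntermediateField K (AlgebraicClosure F),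
    L = IntermediateField.normalClosure K F (AlgebraicClosure F) := ⟨_, rfl⟩
  have hfd : FiniteDimensional K L := by rw [hL]; infer_instance
  have hn : Normal K L := by rw [hL]; infer_instance
  have hG : IsGalois K L := ⟨⟩
  have hFL : ∀ x : F, algebraMap F (AlgebraicClosure F) x ∈ L := by
    intro x
    rw [hL]
    exact (algebraMap F (IntermediateField.normalClosure K F (AlgebraicClosure F)) x).2
  -- the ratios
  have hfin : Finite {z : L // z ^ p = 1} :=
    ((Polynomial.nthRootsFinset p (1 : L)).finite_toSet.subset fun z (hz : z ^ p = 1) =>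
      (Polynomial.mem_nthRootsFinset (Nat.pos_of_ne_zero hp0) 1).2 hz).to_subtype
  have hne : ∀ d : 𝓞 K, Pf p d → (d : K) ≠ 0 := by
    intro d hd h0
    have h1 : d = 0 := RingOfIntegers.ext h0
    subst h1
    exact not_isUnit_zero (hd 0 (dvd_zero _))
  have key : ∀ d : 𝓞 K, ∃ x : L, (Pf p d ∧ ∃ x : F, x ^ p = algebraMap K F (κ * (d : K))) →
      x ^ p = algebraMap K L (κ * (d : K)) := by
    intro d
    by_cases hd : Pf p d ∧ ∃ x : F, x ^ p = algebraMap K F (κ * (d : K))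
    · obtain ⟨-, x, hx⟩ := hd
      refine ⟨⟨algebraMap F (AlgebraicClosure F) x, hFL x⟩, fun _ => Subtype.ext ?_⟩
      show (algebraMap F (AlgebraicClosure F) x) ^ p = algebraMap K (AlgebraicClosure F) _
      rw [← map_pow, hx, ← IsScalarTower.algebraMap_apply]
    · exact ⟨0, fun h => absurd h hd⟩
  choose x hx using key
  have hx0 : ∀ d : 𝓞 K, (Pf p d ∧ ∃ x : F, x ^ p = algebraMap K F (κ * (d : K))) → x d ≠ 0 := by
    intro d hd h0
    have h1 := hx d hd
    rw [h0, zero_pow hp0] at h1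
    exact mul_ne_zero hκ (hne d hd.1) ((map_eq_zero (algebraMap K L)).1 h1.symm)
  have hS : {d : 𝓞 K | Pf p d ∧ ∃ x : F, x ^ p = algebraMap K F (κ * (d : K))} ⊆
      ⋃ f : (L ≃ₐ[K] L) → {z : L // z ^ p = 1},
        {d : 𝓞 K | (Pf p d ∧ ∃ x : F, x ^ p = algebraMap K F (κ * (d : K))) ∧
          ∀ σ : L ≃ₐ[K] L, σ (x d) = (f σ).1 * x d} := by
    intro d hd
    rw [Set.mem_iUnion]
    refine ⟨fun σ => ⟨σ (x d) / x d, ?_⟩, hd, fun σ => ?_⟩
    · rw [div_pow, ← map_pow, hx d hd, AlgEquiv.commutes]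
      exact div_self (fun h => mul_ne_zero hκ (hne d hd.1) ((map_eq_zero (algebraMap K L)).1 h))
    · exact (div_mul_cancel₀ _ (hx0 d hd)).symm
  refine (Set.finite_iUnion fun f => ?_).subset hS
  rcases Set.eq_empty_or_nonempty {d : 𝓞 K |
      (Pf p d ∧ ∃ x : F, x ^ p = algebraMap K F (κ * (d : K))) ∧
        ∀ σ : L ≃ₐ[K] L, σ (x d) = (f σ).1 * x d} with h | ⟨d₀, hd₀, hf₀⟩
  · rw [h]
    exact Set.finite_empty
  refine (Set.finite_range fun u : (𝓞 K)ˣ => (u : 𝓞 K) * d₀).subset ?_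
  rintro d ⟨hd, hf⟩
  have h0 := hx0 d₀ hd₀
  have h1 : ∀ σ : L ≃ₐ[K] L, σ (x d / x d₀) = x d / x d₀ := by
    intro σ
    have h2 : (f σ).1 ≠ 0 := by
      intro h3
      have h4 := (f σ).2
      rw [h3, zero_pow hp0] at h4
      exact zero_ne_one h4
    rw [map_div₀, hf, hf₀, mul_div_mul_left _ _ h2]
  obtain ⟨z, hz⟩ := IntermediateField.mem_bot.1 ((IsGalois.mem_bot_iff_fixed (x d / x d₀)).2 h1)
  have h2 : (d : K) = z ^ p * (d₀ : K) := by
    have h3 : x d = algebraMap K L z * x d₀ := by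
      rw [hz, div_mul_cancel₀ _ h0]
    have h4 := congrArg (fun y => y ^ p) h3
    simp only [mul_pow] at h4
    rw [hx d hd, hx d₀ hd₀, ← map_pow, ← map_mul] at h4
    have h5 := (algebraMap K L).injective h4
    refine mul_left_cancel₀ hκ ?_
    rw [h5]
    ring
  obtain ⟨u, hu⟩ := Z7b_unit hd.1 hd₀.1 h2
  exact ⟨u, hu.symm⟩

end Pool.Agent.Lib.MP_1a91b9_ntDZ
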