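import Pool.Agent.Lib.MP_1a91b9_ntDZ.Z6
import Pool.Agent.Lib.MP_1a91b9_ntDZ.Z7a
import Pool.Agent.Lib.MP_1a91b9_ntDZ.Z7b

/-!
# MP_1a91b9_nt (the discriminant form, third part): an infinite set of twists of rank zero
-/

set_option autoImplicit false

namespace Pool.Agent.Lib.MP_1a91b9_ntDZ

open NumberField
open Pool.Agent.Lib.MP_1a91b9_ntDF (tw cst Hyp Pf)

/-- The constant is positive. -/
private theorem Z7_cst (p : ℕ) (K F : Type) [Field K] [NumberField K] [Field F] : 0 < cst p K F := by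
  unfold cst
  split_ifs with h1
  · exact Pool.Agent.Lib.MP_1a91b9_ntZ.cb_three.1
  all_goals
    refine (Pool.Agent.Lib.MP_1a91b9_ntZ.cb_two (P := Prime (2 : 𝓞 K)) (Q := ∃ x : F, x ^ 2 = -1)
      (R := Squarefree (2 : 𝓞 K)) ?_).1
    simp only [*, if_true, if_false]

/-- There are infinitely many elements without `p`-th powers. -/
private theorem Z7_inf {K : Type} [Field K] [NumberField K] [IsPrincipalIdealRing (𝓞 K)] {p : ℕ}
    (hp : 2 ≤ p) : {d : 𝓞 K | Pf p d}.Infinite := by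
  have h1 : ∀ l : Nat.Primes, ∃ q : 𝓞 K, Prime q ∧ q ∣ ((l : ℕ) : 𝓞 K) := by
    intro l
    have hl0 : ((l : ℕ) : 𝓞 K) ≠ 0 := by
      rw [Ne, Nat.cast_eq_zero]
      exact l.2.ne_zero
    have hlu : ¬ IsUnit ((l : ℕ) : 𝓞 K) := by
      intro h
      have h2 : IsUnit (Algebra.norm ℤ ((l : ℕ) : 𝓞 K)) := h.map (Algebra.norm ℤ)
      have h3 : Algebra.norm ℤ ((l : ℕ) : 𝓞 K) = ((l : ℕ) : ℤ) ^ Module.finrank ℤ (𝓞 K) := by
        have h4 := Algebra.norm_algebraMap (R := ℤ) (S := 𝓞 K) ((l : ℕ) : ℤ)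
        rw [map_natCast] at h4
        exact h4
      rw [h3, isUnit_pow_iff (by
        rw [RingOfIntegers.rank]
        exact Module.finrank_pos.ne')] at h2
      exact (Nat.prime_iff_prime_int.1 l.2).not_isUnit h2
    obtain ⟨q, hq, hql⟩ := WfDvdMonoid.exists_irreducible_factor hlu hl0
    exact ⟨q, hq.prime, hql⟩
  choose q hq hql using h1
  have hinj : Function.Injective q := by
    intro l l' h
    by_contra hne
    have hco : Nat.Coprime (l : ℕ) (l' : ℕ) :=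
      (Nat.coprime_primes l.2 l'.2).2 fun h => hne (Subtype.ext h)
    have h2 : IsCoprime ((l : ℕ) : 𝓞 K) ((l' : ℕ) : 𝓞 K) := Nat.Coprime.cast hco
    have h3 : q l' ∣ ((l : ℕ) : 𝓞 K) := h ▸ hql l
    exact (hq l').not_isUnit (h2.isUnit_of_dvd' h3 (hql l'))
  refine (Set.infinite_range_of_injective hinj).mono ?_
  rintro _ ⟨l, rfl⟩ y hy
  by_contra hyu
  have h2 : y ∣ q l := (dvd_pow_self y (by omega)).trans hy
  obtain ⟨z, hz⟩ := h2
  have h3 : IsUnit z := by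
    rcases (hq l).irreducible.isUnit_or_isUnit hz with h | h
    · exact absurd h hyu
    · exact h
  have h4 : y ^ 2 ∣ q l := (pow_dvd_pow y hp).trans hy
  have h5 : y ^ 2 ∣ y := by
    rw [hz] at h4
    exact (h3.dvd_mul_right).1 h4
  have hy0 : y ≠ 0 := by
    rintro rfl
    rw [zero_mul] at hz
    exact (hq l).ne_zero hz
  obtain ⟨w, hw⟩ := h5
  refine hyu (IsUnit.of_mul_eq_one w ?_)
  refine mul_left_cancel₀ hy0 ?_
  rw [mul_one]
  calc y * (y * w) = y ^ 2 * w := by ring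
    _ = y := hw.symm

/-- There are infinitely many twists with the property. -/
private theorem Z7_A (p : ℕ) (K : Type) [Field K] [NumberField K] (E : WeierstrassCurve K) (F : Type)
    [Field F] [NumberField F] [Algebra K F] (H : Hyp p K E F) [IsPrincipalIdealRing (𝓞 K)]
    [Finite (𝓞 K)ˣ] (hp : 2 ≤ p) :
    {d : 𝓞 K | Pf p d ∧ PropZ K ((tw p E K (d : K)).baseChange F)}.Infinite := by
  intro hfin
  set c : ℝ := cst p K F ^ Module.finrank K F with hc
  have hc0 : 0 < c := pow_pos (Z7_cst p K F) _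
  have h1 := densZ p K E F H 0 1 0 (by rw [pow_zero]) (fun q hq h => hq.not_isUnit (by
    exact isUnit_of_dvd_one ((dvd_pow_self q (by omega)).trans h.1))) (c / 2) (half_pos hc0)
  have hNfin : ∀ X : ℝ, {d : 𝓞 K | d ≠ 0 ∧ |Algebra.norm ℤ d| ≤ X}.Finite := fun X =>
    Pool.Agent.Lib.MP_1a91b9_ntW.J.finite_norm_le (K := K) X
  have hBfin : ∀ X : ℝ, {d : 𝓞 K | Pf p d ∧ (1 : 𝓞 K) ∣ d - 0 ∧ |Algebra.norm ℤ d| ≤ X}.Finite := by
    intro X
    refine (hNfin X).subset ?_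
    rintro d ⟨hd, -, hX⟩
    refine ⟨?_, hX⟩
    rintro rfl
    exact not_isUnit_zero (hd 0 (dvd_zero _))
  set M : ℝ := ((hfin.toFinset.card : ℕ) : ℝ) with hM
  -- the number of all the elements is bounded
  have h2 : ∀ᶠ X : ℝ in Filter.atTop,
      (Nat.card {d : 𝓞 K // Pf p d ∧ (1 : 𝓞 K) ∣ d - 0 ∧ |Algebra.norm ℤ d| ≤ X} : ℝ) ≤ 2 * M / c := by
    filter_upwards [h1] with X hX
    have h3 : (Nat.card {d : 𝓞 K // Pf p d ∧ (1 : 𝓞 K) ∣ d - 0 ∧ |Algebra.norm ℤ d| ≤ X ∧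
        PropZ K ((tw p E K (d : K)).baseChange F)} : ℝ) ≤ M := by
      have h4 : {d : 𝓞 K | Pf p d ∧ (1 : 𝓞 K) ∣ d - 0 ∧ |Algebra.norm ℤ d| ≤ X ∧
          PropZ K ((tw p E K (d : K)).baseChange F)} ⊆
          {d : 𝓞 K | Pf p d ∧ PropZ K ((tw p E K (d : K)).baseChange F)} := by
        rintro d ⟨h5, -, -, h6⟩
        exact ⟨h5, h6⟩
      have h5 := Set.ncard_le_ncard h4 hfin
      rw [Set.ncard_eq_toFinset_card _ hfin] at h5
      rw [hM]
      exact_mod_cast h5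
    set B : ℝ := (Nat.card {d : 𝓞 K // Pf p d ∧ (1 : 𝓞 K) ∣ d - 0 ∧ |Algebra.norm ℤ d| ≤ X} : ℝ) with hB
    have hB0 : 0 ≤ B := Nat.cast_nonneg _
    have h4 : c / 2 ≤ M / B := by
      have h5 : c - c / 2 ≤ M / B := hX.trans (div_le_div_of_nonneg_right h3 hB0)
      linarith
    have hBpos : 0 < B := by
      rcases hB0.eq_or_lt with h5 | h5
      · rw [← h5, div_zero] at h4
        linarith
      · exact h5
    rw [le_div_iff₀ hBpos] at h4
    rw [le_div_iff₀ hc0]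
    nlinarith
  -- so there are finitely many elements
  obtain ⟨X₀, hX₀⟩ := Filter.eventually_atTop.1 h2
  obtain ⟨s, hs, hscard⟩ := (Z7_inf (K := K) (p := p) hp).exists_subset_card_eq (⌊2 * M / c⌋₊ + 1)
  have h3 : ∃ X : ℝ, X₀ ≤ X ∧ ∀ d ∈ s, ((|Algebra.norm ℤ d| : ℤ) : ℝ) ≤ X := by
    refine ⟨max X₀ (∑ d ∈ s, ((|Algebra.norm ℤ d| : ℤ) : ℝ)), le_max_left _ _, fun d hd => ?_⟩
    refine le_trans ?_ (le_max_right _ _)
    exact Finset.single_le_sum (f := fun d => ((|Algebra.norm ℤ d| : ℤ) : ℝ))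
      (fun d _ => by exact_mod_cast abs_nonneg _) hd
  obtain ⟨X, hX, hsX⟩ := h3
  have h4 := hX₀ X hX
  have h5 : (s : Set (𝓞 K)) ⊆ {d : 𝓞 K | Pf p d ∧ (1 : 𝓞 K) ∣ d - 0 ∧ |Algebra.norm ℤ d| ≤ X} := by
    intro d hd
    exact ⟨hs hd, one_dvd _, by exact_mod_cast hsX d hd⟩
  have h6 := Set.ncard_le_ncard h5 (hBfin X)
  rw [Set.ncard_coe_finset, hscard] at h6
  have h7 : ((⌊2 * M / c⌋₊ + 1 : ℕ) : ℝ) ≤ 2 * M / c := le_trans (by exact_mod_cast h6) h4
  have h8 := Nat.lt_floor_add_one (2 * M / c)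
  push_cast at h7
  linarith

/-- **An infinite set of twists of rank zero.** (By `densZ` with `n = 0`, `m = 1` the set of the `p`-free `d` with
`PropZ` is infinite: `c > 0` (`cb_two`, `cb_three` of `ntZ`), and the number of the `p`-free `d` of norm at most `X` is
positive for large `X`, for every subset of the conditions: if there were finitely many with `PropZ` then the
proportion would tend to `0`, as there are infinitely many `p`-free elements (the prime elements). Then `fin_cls` and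
`ind_inf` for `R δ δ' = ¬ Sep p E F δ δ'`; for `p = 3` remove first the finitely many `d` for which `a₃ d` is a cube in
`F`. For `p = 2`: `x² δ' = e δ` means that `e δ δ'` is a square, `e ≠ 0` as `Δ ≠ 0`.) -/
theorem infZ (p : ℕ) (K : Type) [Field K] [NumberField K] (E : WeierstrassCurve K) (F : Type)
    [Field F] [NumberField F] [Algebra K F] (H : Hyp p K E F) [IsPrincipalIdealRing (𝓞 K)]
    [Finite (𝓞 K)ˣ] : ∃ T : Set K, T.Infinite ∧ 0 ∉ T ∧
      (∀ δ ∈ T, ∀ δ' ∈ T, δ ≠ δ' → Sep p E F δ δ') ∧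
      ∀ δ ∈ T, PropZ K ((tw p E K δ).baseChange F) := by
  have hp : 2 ≤ p := by
    obtain ⟨-, -, -, -, hp, -⟩ := H
    rcases hp with ⟨rfl, -⟩ | ⟨rfl, -⟩ <;> norm_num
  have hA := Z7_A p K E F H hp
  have hne : ∀ d : 𝓞 K, Pf p d → (d : K) ≠ 0 := by
    intro d hd h0
    have h1 : d = 0 := RingOfIntegers.ext h0
    subst h1
    exact not_isUnit_zero (hd 0 (dvd_zero _))
  -- it is sufficient to find an infinite set of elements of the ring of integers
  suffices h : ∃ T ⊆ {d : 𝓞 K | Pf p d ∧ PropZ K ((tw p E K (d : K)).baseChange F)}, T.Infinite ∧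
      ∀ a ∈ T, ∀ b ∈ T, a ≠ b → Sep p E F (a : K) (b : K) by
    obtain ⟨T, hTA, hT, hsep⟩ := h
    refine ⟨(fun d : 𝓞 K => (d : K)) '' T, hT.image (fun a _ b _ h => RingOfIntegers.ext h), ?_, ?_, ?_⟩
    · rintro ⟨d, hd, h0⟩
      exact hne d (hTA hd).1 h0
    · rintro _ ⟨a, ha, rfl⟩ _ ⟨b, hb, rfl⟩ hab
      exact hsep a ha b hb fun h => hab (by rw [h])
    · rintro _ ⟨a, ha, rfl⟩
      exact (hTA ha).2
  obtain ⟨-, hΔ, h1, h6, hp', -⟩ := H
  rcases hp' with ⟨rfl, h3, -⟩ | ⟨rfl, h2, h4, s, hs⟩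
  · have ha4 : E.a₄ ≠ 0 := by
      intro h
      refine hΔ ?_
      simp only [WeierstrassCurve.Δ, WeierstrassCurve.b₂, WeierstrassCurve.b₄, WeierstrassCurve.b₆,
        WeierstrassCurve.b₈, h, h1, h3, h6]
      ring
    have he0 : ∀ e ∈ ({1, -1, E.a₄, -E.a₄} : Set K), e ≠ 0 := by
      intro e he
      simp only [Set.mem_insert_iff, Set.mem_singleton_iff] at he
      rcases he with rfl | rfl | rfl | rfl
      · exact one_ne_zero
      · exact neg_ne_zero.2 one_ne_zero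
      · exact ha4
      · exact neg_ne_zero.2 ha4
    have hζ : IsPrimitiveRoot (-1 : K) 2 := IsPrimitiveRoot.neg_one 0 (by norm_num)
    obtain ⟨T, hTA, hT, hsep⟩ := ind_inf {d : 𝓞 K | Pf 2 d ∧ PropZ K ((tw 2 E K (d : K)).baseChange F)} hA
      (fun a b => ∃ e ∈ ({1, -1, E.a₄, -E.a₄} : Set K), ∃ x : F,
        x ^ 2 = algebraMap K F (e * (a : K) * (b : K))) (by
      intro a ha
      have ha0 := hne a ha.1
      have hfin : (⋃ e ∈ ({1, -1, E.a₄, -E.a₄} : Set K),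
          {b : 𝓞 K | Pf 2 b ∧ ∃ x : F, x ^ 2 = algebraMap K F (e * (a : K) * (b : K))}).Finite := by
        refine Set.Finite.biUnion (by simp) fun e he => ?_
        exact fin_cls hζ F (mul_ne_zero (he0 e he) ha0)
      refine hfin.subset ?_
      rintro b ⟨hb, hR⟩
      have hR' : ∃ e ∈ ({1, -1, E.a₄, -E.a₄} : Set K), ∃ x : F,
          x ^ 2 = algebraMap K F (e * (a : K) * (b : K)) := by
        rcases hR with h | ⟨e, he, x, hx⟩
        · exact h
        · exact ⟨e, he, x, by rw [hx, mul_right_comm]⟩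
      obtain ⟨e, he, x, hx⟩ := hR'
      exact Set.mem_biUnion he ⟨hb.1, x, hx⟩)
    refine ⟨T, hTA, hT, fun a ha b hb hab x => ⟨fun _ e he hx => hsep a ha b hb hab ?_, fun h => ?_⟩⟩
    · refine ⟨e, he, x * algebraMap K F (b : K), ?_⟩
      have h7 : (x * algebraMap K F (b : K)) ^ 2 =
          (x ^ 2 * algebraMap K F (b : K)) * algebraMap K F (b : K) := by ring
      rw [h7, hx, ← map_mul]
    · exact absurd h (by norm_num)
  · have ha3 : E.a₃ ≠ 0 := by
      intro h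
      refine hΔ ?_
      simp only [WeierstrassCurve.Δ, WeierstrassCurve.b₂, WeierstrassCurve.b₄, WeierstrassCurve.b₆,
        WeierstrassCurve.b₈, h, h1, h2, h4, h6]
      ring
    obtain ⟨z, hζ⟩ : ∃ z : K, IsPrimitiveRoot z 3 := by
      obtain ⟨z, hz⟩ : ∃ z : K, z ^ 2 + z + 1 = 0 := by
        refine ⟨(-1 + s) / 2, ?_⟩
        field_simp
        linear_combination hs
      refine ⟨z, ?_⟩
      have hz1 : z ≠ 1 := by
        rintro rfl
        have h3 : (3 : K) ≠ 0 := by norm_num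
        apply h3
        linear_combination hz
      have hz3 : z ^ 3 = 1 := by linear_combination (z - 1) * hz
      rw [← orderOf_eq_prime hz3 hz1]
      exact IsPrimitiveRoot.orderOf z
    have hA' : ({d : 𝓞 K | Pf 3 d ∧ PropZ K ((tw 3 E K (d : K)).baseChange F)} \
        {d : 𝓞 K | Pf 3 d ∧ ∃ x : F, x ^ 3 = algebraMap K F (E.a₃ * (d : K))}).Infinite :=
      hA.sdiff (fin_cls hζ F ha3)
    obtain ⟨T, hTA, hT, hsep⟩ := ind_inf _ hA'
      (fun a b => (∃ x : F, x ^ 3 * algebraMap K F (b : K) = algebraMap K F (a : K)) ∨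
        ∃ x : F, x ^ 3 = algebraMap K F (E.a₃ ^ 2 * (a : K) * (b : K))) (by
      rintro a ⟨ha, -⟩
      have ha0 := hne a ha.1
      have hfin : ({b : 𝓞 K | Pf 3 b ∧ ∃ x : F, x ^ 3 = algebraMap K F ((a : K)⁻¹ * (b : K))} ∪
          {b : 𝓞 K | Pf 3 b ∧ ∃ x : F, x ^ 3 = algebraMap K F (E.a₃ ^ 2 * (a : K) * (b : K))}).Finite :=
        (fin_cls hζ F (inv_ne_zero ha0)).union (fin_cls hζ F (mul_ne_zero (pow_ne_zero 2 ha3) ha0))
      refine hfin.subset ?_
      rintro b ⟨⟨hb, -⟩, hR⟩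
      have hb0 := hne b hb.1
      have haF : algebraMap K F (a : K) ≠ 0 := by
        rw [Ne, map_eq_zero]
        exact ha0
      have hbF : algebraMap K F (b : K) ≠ 0 := by
        rw [Ne, map_eq_zero]
        exact hb0
      rcases hR with (⟨x, hx⟩ | ⟨x, hx⟩) | (⟨x, hx⟩ | ⟨x, hx⟩)
      · refine Or.inl ⟨hb.1, x⁻¹, ?_⟩
        have hx0 : x ^ 3 ≠ 0 := by
          intro h
          rw [h, zero_mul] at hx
          exact haF hx.symm
        rw [map_mul, map_inv₀, ← hx, inv_pow, mul_inv, mul_assoc, inv_mul_cancel₀ hbF, mul_one]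
      · exact Or.inr ⟨hb.1, x, hx⟩
      · refine Or.inl ⟨hb.1, x, ?_⟩
        rw [map_mul, map_inv₀, ← hx]
        field_simp
      · refine Or.inr ⟨hb.1, x, ?_⟩
        rw [hx, mul_right_comm])
    refine ⟨T, fun d hd => (hTA hd).1, hT, fun a ha b hb hab x => ⟨fun h => ?_, fun _ => ⟨fun hx => ?_,
      fun hx => hsep a ha b hb hab (Or.inl ⟨x, hx⟩), fun hx => hsep a ha b hb hab (Or.inr ⟨x, hx⟩)⟩⟩⟩
    · exact absurd h (by norm_num)
    · exact (hTA ha).2 ⟨(hTA ha).1.1, x, hx⟩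

end Pool.Agent.Lib.MP_1a91b9_ntDZ
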