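import Pool.Agent.Lib.MP_1a91b9_ntDT.P5
import Pool.Agent.Lib.MP_1a91b9_ntDT.Q3
import Pool.Agent.Lib.MP_1a91b9_ntDF.C1
import Pool.Agent.Lib.MP_1a91b9_ntDF.C2
import Pool.Agent.Lib.MP_1a91b9_ntDZ.Z4
import Pool.Agent.Lib.MP_1a91b9_ntDZ.Z7

/-!
# MP_1a91b9_nt (the discriminant form, third part): the law
-/

set_option autoImplicit false

namespace Pool.Agent.Lib.MP_1a91b9_ntDZ

open NumberField IsDedekindDomain
open Pool.Agent.Lib.MP_1a91b9_ntL (crv)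
open Pool.Agent.Lib.MP_1a91b9_ntDF (Pf cK tw TowM cst NK Ext DiscLe Hyp law_discC loc_bridge)
open Pool.Agent.Lib.MP_1a91b9_ntDT (l2T l3T)

/-- The elements of bounded norm. -/
private theorem finZ_norm {K : Type} [Field K] [NumberField K] [Finite (𝓞 K)ˣ] (X : ℝ) :
    {A : 𝓞 K | A ≠ 0 ∧ |Algebra.norm ℤ A| ≤ X}.Finite :=
  Pool.Agent.Lib.MP_1a91b9_ntW.J.finite_norm_le (K := K) X

/-- Monotonicity of the proportion. -/
private theorem finZ_mono {α : Type} {v ε : ℝ} {A B : ℝ → α → Prop} {P P' : α → Prop}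
    (hfin : ∀ X, {d | A X d ∧ B X d}.Finite) (hP : ∀ X d, A X d → P d → P' d)
    (h : ∀ᶠ X : ℝ in Filter.atTop, v - ε ≤ (Nat.card {d : α // A X d ∧ B X d ∧ P d} : ℝ) /
      (Nat.card {d : α // A X d ∧ B X d} : ℝ)) :
    ∀ᶠ X : ℝ in Filter.atTop, v - ε ≤ (Nat.card {d : α // A X d ∧ B X d ∧ P' d} : ℝ) /
      (Nat.card {d : α // A X d ∧ B X d} : ℝ) := by
  filter_upwards [h] with X hX
  refine hX.trans (div_le_div_of_nonneg_right ?_ (Nat.cast_nonneg _))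
  have h1 : {d | A X d ∧ B X d ∧ P d} ⊆ {d | A X d ∧ B X d ∧ P' d} := by
    rintro d ⟨h1, h2, h3⟩
    exact ⟨h1, h2, hP X d h1 h3⟩
  have h2 : {d | A X d ∧ B X d ∧ P' d}.Finite := by
    refine (hfin X).subset ?_
    rintro d ⟨h1, h2, -⟩
    exact ⟨h1, h2⟩
  exact_mod_cast Set.ncard_le_ncard h1 h2

/-- The tuples with bounded norm. -/
private theorem finZ_tup {K : Type} [Field K] [NumberField K] [Finite (𝓞 K)ˣ] (r p : ℕ) (X : ℝ)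
    (P : (Fin r → 𝓞 K) → Prop) :
    {d : Fin r → 𝓞 K | P d ∧ ∃ A, A ≠ 0 ∧ |Algebra.norm ℤ A| ≤ X ∧ ∀ i, d i ∣ A ^ p}.Finite := by
  have h1 : {x : 𝓞 K | x ≠ 0 ∧ |Algebra.norm ℤ x| ≤ X ^ p}.Finite := finZ_norm (X ^ p)
  refine (Set.Finite.pi fun _ : Fin r => h1).subset ?_
  rintro d ⟨-, A, hA1, hA2, hA3⟩
  rw [Set.mem_pi]
  intro k _
  have hA0 : A ^ p ≠ 0 := pow_ne_zero p hA1
  have hk0 : d k ≠ 0 := fun h => hA0 (by
    have h2 := hA3 k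
    rw [h] at h2
    exact zero_dvd_iff.1 h2)
  refine ⟨hk0, ?_⟩
  have h2 : Algebra.norm ℤ (d k) ∣ Algebra.norm ℤ A ^ p := by
    rw [← map_pow]
    exact map_dvd (Algebra.norm ℤ) (hA3 k)
  have h3 : Algebra.norm ℤ A ^ p ≠ 0 := by
    rw [← map_pow]
    intro h
    exact hA0 (Algebra.norm_eq_zero_iff.1 h)
  have h4 : |Algebra.norm ℤ (d k)| ≤ |Algebra.norm ℤ A| ^ p := by
    rw [← abs_pow]
    exact Int.le_of_dvd (abs_pos.2 h3) ((abs_dvd_abs _ _).2 h2)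
  have h5 : ((|Algebra.norm ℤ (d k)| : ℤ) : ℝ) ≤ ((|Algebra.norm ℤ A| : ℤ) : ℝ) ^ p := by
    exact_mod_cast h4
  exact h5.trans (pow_le_pow_left₀ (by positivity) hA2 p)


/-- The number of the curves with the property. -/
private theorem finZ_set {K : Type} {T : Set K} {t : ℕ} {P Q : K → Prop} (h : ∀ δ ∈ T, P δ → Q δ)
    (ht : (t : ℕ∞) ≤ {δ ∈ T | P δ}.encard) : (t : ℕ∞) ≤ {δ ∈ T | Q δ}.encard :=
  ht.trans (Set.encard_le_encard fun δ hδ => ⟨hδ.1, h δ hδ.1 hδ.2⟩)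

private theorem finZ_ex {K : Type} {T : Set K} {t : ℕ} {P : K → Prop} (h0 : 0 < t)
    (ht : (t : ℕ∞) ≤ {δ ∈ T | P δ}.encard) : ∃ δ ∈ T, P δ := by
  have h1 : {δ ∈ T | P δ}.encard ≠ 0 := by
    intro h
    rw [h] at ht
    have h2 : (t : ℕ∞) = 0 := le_antisymm ht bot_le
    rw [Nat.cast_eq_zero] at h2
    omega
  obtain ⟨δ, hδ⟩ := Set.encard_ne_zero.1 h1
  exact ⟨δ, hδ.1, hδ.2⟩

/-- The field `K` is a principal ideal domain. -/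
private theorem finZ_pid2 {K : Type} [Field K] [NumberField K] (hK : Module.finrank ℚ K = 2)
    {E : WeierstrassCurve K} (hΔ : E.Δ ≠ 0) (h1 : E.a₁ = 0) (h3 : E.a₃ = 0) (h6 : E.a₆ = 0) {j D : ℤ}
    (hjD : (j, D) ∈ [(0, -3), (54000, -3), (-12288000, -3), (1728, -4), (287496, -4), (-3375, -7),
      (16581375, -7), (8000, -8), (-32768, -11), (-884736, -19), (-884736000, -43),
      (-147197952000, -67), (-262537412640768000, -163)])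
    (hj : E.c₄ ^ 3 = j * E.Δ) (hD : ∃ s : K, s ^ 2 = D) : IsPrincipalIdealRing (𝓞 K) := by
  obtain ⟨a, ha⟩ : ∃ a, a = E.a₂ := ⟨_, rfl⟩
  obtain ⟨b, hb⟩ : ∃ b, b = E.a₄ := ⟨_, rfl⟩
  have hE : E = crv a b := WeierstrassCurve.ext h1 ha.symm h3 hb.symm h6
  have hΔ' := hΔ
  have hj' := hj
  rw [hE] at hΔ' hj'
  rw [Pool.Agent.Lib.MP_1a91b9_ntY.crv_Δ] at hΔ' hj'
  rw [Pool.Agent.Lib.MP_1a91b9_ntY.crv_c₄] at hj'
  have hE' : b * (a ^ 2 - 4 * b) ≠ 0 := by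
    intro h
    refine hΔ' ?_
    linear_combination 16 * b * h
  have hj2 : 256 * (a ^ 2 - 3 * b) ^ 3 = j * (b ^ 2 * (a ^ 2 - 4 * b)) := by
    have h16 : (16 : K) ≠ 0 := by norm_num
    refine mul_left_cancel₀ h16 ?_
    linear_combination hj'
  have hb0 : b ≠ 0 := left_ne_zero_of_mul hE'
  have hW : Pool.Agent.Lib.MP_1a91b9_ntY.CMK (crv a b) := by
    obtain ⟨s, hs⟩ := hD
    refine ⟨?_, j, D, s, hjD, hs, ?_⟩
    · rw [Pool.Agent.Lib.MP_1a91b9_ntY.crv_Δ]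
      exact mul_ne_zero (mul_ne_zero (by norm_num) (pow_ne_zero 2 hb0)) (right_ne_zero_of_mul hE')
    · refine Pool.Agent.Lib.MP_1a91b9_ntY.hasJ_crv ?_
      linear_combination 16 * hj2
  have hP : Pool.Agent.Lib.MP_1a91b9_ntY.Pt2 (crv a b) := by
    refine ⟨0, ?_⟩
    unfold crv WeierstrassCurve.b₂ WeierstrassCurve.b₄ WeierstrassCurve.b₆
    ring
  exact Pool.Agent.Lib.MP_1a91b9_ntC.pid_of hK hW hP

/-- The twist, `p = 2`. -/
private theorem finZ_tw2 {K : Type} [Field K] [NumberField K] {E : WeierstrassCurve K} (h1 : E.a₁ = 0)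
    (h3 : E.a₃ = 0) (h6 : E.a₆ = 0) (hΔ : E.Δ ≠ 0) {j : ℤ} (hj : E.c₄ ^ 3 = j * E.Δ) {δ : K}
    (hδ : δ ≠ 0) : (tw 2 E K δ).Δ ≠ 0 ∧ (tw 2 E K δ).c₄ ^ 3 = j * (tw 2 E K δ).Δ := by
  have e1 : tw 2 E K δ = ⟨0, E.a₂ * δ, 0, E.a₄ * δ ^ 2, 0⟩ := by
    refine WeierstrassCurve.ext rfl ?_ ?_ ?_ rfl
    · show algebraMap K K (E.a₂ * δ ^ (2 / 2)) = E.a₂ * δ
      rw [show 2 / 2 = 1 from rfl, pow_one]
      rfl
    · show algebraMap K K (E.a₃ * δ ^ (3 / 2)) = 0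
      rw [h3, zero_mul, map_zero]
    · show algebraMap K K (E.a₄ * δ ^ (4 / 2)) = E.a₄ * δ ^ 2
      rfl
  have e2 : (tw 2 E K δ).Δ = δ ^ 6 * E.Δ := by
    rw [e1]
    unfold WeierstrassCurve.Δ WeierstrassCurve.b₂ WeierstrassCurve.b₄ WeierstrassCurve.b₆
      WeierstrassCurve.b₈
    rw [h1, h3, h6]
    ring
  have e3 : (tw 2 E K δ).c₄ = δ ^ 2 * E.c₄ := by
    rw [e1]
    unfold WeierstrassCurve.c₄ WeierstrassCurve.b₂ WeierstrassCurve.b₄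
    rw [h1, h3]
    ring
  refine ⟨?_, ?_⟩
  · rw [e2]
    exact mul_ne_zero (pow_ne_zero 6 hδ) hΔ
  · rw [e2, e3, mul_pow, hj]
    ring

/-- The twist, `p = 3`. -/
private theorem finZ_tw3 {K : Type} [Field K] [NumberField K] {E : WeierstrassCurve K} (h1 : E.a₁ = 0)
    (h2 : E.a₂ = 0) (h4 : E.a₄ = 0) (h6 : E.a₆ = 0) (hΔ : E.Δ ≠ 0) {δ : K} (hδ : δ ≠ 0) :
    (tw 3 E K δ).Δ ≠ 0 := by
  have e1 : tw 3 E K δ = ⟨0, 0, E.a₃ * δ, 0, 0⟩ := by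
    refine WeierstrassCurve.ext rfl ?_ ?_ ?_ rfl
    · show algebraMap K K (E.a₂ * δ ^ (2 / 3)) = 0
      rw [h2, zero_mul, map_zero]
    · show algebraMap K K (E.a₃ * δ ^ (3 / 3)) = E.a₃ * δ
      rw [show 3 / 3 = 1 from rfl, pow_one]
      rfl
    · show algebraMap K K (E.a₄ * δ ^ (4 / 3)) = 0
      rw [h4, zero_mul, map_zero]
  have e2 : (tw 3 E K δ).Δ = δ ^ 4 * E.Δ := by
    rw [e1]
    unfold WeierstrassCurve.Δ WeierstrassCurve.b₂ WeierstrassCurve.b₄ WeierstrassCurve.b₆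
      WeierstrassCurve.b₈
    rw [h1, h2, h4, h6]
    ring
  rw [e2]
  exact mul_ne_zero (pow_ne_zero 4 hδ) hΔ

open scoped TensorProduct in
open Classical in
/-- **The law.** -/
theorem finZ (p : ℕ) (K : Type) [Field K] [NumberField K] (E : WeierstrassCurve K) (F : Type) [Field F]
    [NumberField F] [Algebra K F] (H : Hyp p K E F) (r : ℕ) (T : Set K) (h0 : (0 : K) ∉ T)
    (hT : ∀ δ ∈ T, ∀ δ' ∈ T, δ ≠ δ' → Sep p E F δ δ') (t : ℕ) (ht : 0 < t)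
    (C : Set (IntermediateField K (AlgebraicClosure K))) (hC0 : (C ∩ Ext K p r).Nonempty)
    (hC : ∀ N N' : IntermediateField K (AlgebraicClosure K),
      (∀ v : HeightOneSpectrum (𝓞 K), (p : 𝓞 K) ∈ v.asIdeal →
        Nonempty (v.adicCompletion K ⊗[K] N ≃ₐ[v.adicCompletion K] v.adicCompletion K ⊗[K] N')) →
      N ∈ C → N' ∈ C) (v : ℝ)
    (hv : v = if T.Infinite then 1 else ∑ j ∈ Finset.Icc t T.ncard, (T.ncard.choose j : ℝ) *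
      (cst p K F ^ ((p ^ r - 1) * Module.finrank K F)) ^ j *
        (1 - cst p K F ^ ((p ^ r - 1) * Module.finrank K F)) ^ (T.ncard - j)) (ε : ℝ) (hε : 0 < ε) :
    ∀ᶠ X : ℝ in Filter.atTop, v - ε ≤
      (Nat.card {N : IntermediateField K (AlgebraicClosure K) //
        N ∈ Ext K p r ∧ N ∈ C ∧ DiscLe N X ∧ t ≤ {δ ∈ T | PropM p (tw p E K δ) F N}.encard} : ℝ) /
      (Nat.card {N : IntermediateField K (AlgebraicClosure K) //
        N ∈ Ext K p r ∧ N ∈ C ∧ DiscLe N X} : ℝ) := by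
  obtain ⟨hK, hΔ, h1, h6, hp, l, hl, hF⟩ := H
  rcases hp with ⟨rfl, h3, j, D, hjD, hj, hD⟩ | ⟨rfl, h2, h4, hs⟩
  · have hl' : l = 2 ∨ l = 4 ∧ ∃ i : K, i ^ 2 = -1 := by
      rcases hl with h | ⟨-, h⟩
      · exact Or.inl h
      · exact Or.inr h
    have hneg : D < 0 := by
      have h7 := hjD
      simp only [List.mem_cons, Prod.mk.injEq, List.not_mem_nil, or_false] at h7
      rcases h7 with ⟨-, rfl⟩ | ⟨-, rfl⟩ | ⟨-, rfl⟩ | ⟨-, rfl⟩ | ⟨-, rfl⟩ | ⟨-, rfl⟩ | ⟨-, rfl⟩ |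
        ⟨-, rfl⟩ | ⟨-, rfl⟩ | ⟨-, rfl⟩ | ⟨-, rfl⟩ | ⟨-, rfl⟩ | ⟨-, rfl⟩ <;> norm_num
    have hfu : Finite (𝓞 K)ˣ := by
      obtain ⟨s, hs⟩ := hD
      exact Pool.Agent.Lib.MP_1a91b9_ntW.J.finite_units hK
        (Pool.Agent.Lib.MP_1a91b9_ntW.J.no_real hs hneg)
    have hpi : IsPrincipalIdealRing (𝓞 K) := finZ_pid2 hK hΔ h1 h3 h6 hjD hj hD
    have hζ : IsPrimitiveRoot (-1 : K) 2 := IsPrimitiveRoot.neg_one 0 (by norm_num)
    obtain ⟨n₀, hn₀⟩ := loc_bridge hζ r C hC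
    refine law_discC hζ finZ_norm r C hC0 n₀ hn₀ (fun N => t ≤ {δ ∈ T | PropM 2 (tw 2 E K δ) F N}.encard)
      v (fun n u hu ε hε => ?_) ε hε
    refine finZ_mono (α := Fin r → 𝓞 K) (A := fun _ d => ∀ i, Pf 2 (d i) ∧ ((2 : ℕ) : 𝓞 K) ^ n ∣ d i - u i)
      (B := fun X d => ∃ A, A ≠ 0 ∧ |Algebra.norm ℤ A| ≤ X ∧ ∀ i, d i ∣ A ^ (2 - 1))
      (P := fun d => t ≤ {δ ∈ T | Pool.Agent.Lib.MP_1a91b9_ntMQ.Fin.PropMF (tw 2 E K δ) F (cK K d)}.encard)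
      (P' := fun d => Module.finrank K (NK 2 (cK K d)) = 2 ^ r ∧
        t ≤ {δ ∈ T | PropM 2 (tw 2 E K δ) F (NK 2 (cK K d))}.encard)
      (fun X => finZ_tup r _ X _) (fun X d hd hM => ?_)
      (l2T K hK E ⟨h1, h3, h6⟩ hΔ j D hjD hj hD l hl' F hF r T h0
        (fun δ hδ δ' hδ' hne e he x => (hT δ hδ δ' hδ' hne x).1 rfl e he) n u hu t v hv ε hε)
    have h7 : ∀ i, cK K d i ≠ 0 := by
      intro i
      have h7 : d i ≠ 0 := by
        intro h0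
        have h8 := (hd i).1 0 (by
          rw [h0]
          exact dvd_zero _)
        exact not_isUnit_zero h8
      show ((d i : 𝓞 K) : K) ≠ 0
      exact_mod_cast h7
    have h8 : ∀ δ : K, δ ≠ 0 → Pool.Agent.Lib.MP_1a91b9_ntMQ.Fin.PropMF (tw 2 E K δ) F (cK K d) →
        Module.finrank K (NK 2 (cK K d)) = 2 ^ r ∧ PropM 2 (tw 2 E K δ) F (NK 2 (cK K d)) := by
      intro δ hδ0 h
      obtain ⟨e1, e2⟩ := finZ_tw2 h1 h3 h6 hΔ hj hδ0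
      exact d2Z K hK (tw 2 E K δ) ⟨rfl, by
        show algebraMap K K (E.a₃ * δ ^ (3 / 2)) = 0
        rw [h3, zero_mul, map_zero], rfl⟩ e1 j D hjD e2 hD l hl' F hF h7 h
    obtain ⟨δ, hδT, hδ⟩ := finZ_ex ht hM
    exact ⟨(h8 δ (fun h => h0 (h ▸ hδT)) hδ).1,
      finZ_set (fun δ hδT h => (h8 δ (fun h' => h0 (h' ▸ hδT)) h).2) hM⟩
  · have hl' : l = 3 := by
      rcases hl with h | ⟨h, -⟩
      · exact h
      · exact absurd h (by norm_num)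
    rw [hl'] at hF
    have hfu : Finite (𝓞 K)ˣ := by
      obtain ⟨s, hs⟩ := hs
      have hs' : s ^ 2 = ((-3 : ℤ) : K) := by
        rw [hs]
        push_cast
        rfl
      exact Pool.Agent.Lib.MP_1a91b9_ntW.J.finite_units hK
        (Pool.Agent.Lib.MP_1a91b9_ntW.J.no_real hs' (by norm_num))
    have hpi : IsPrincipalIdealRing (𝓞 K) := by
      obtain ⟨s, hs⟩ := hs
      obtain ⟨e⟩ := Pool.Agent.Lib.MP_1a91b9_ntJ.exists_e6 hK hs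
      obtain ⟨e'⟩ := Pool.Agent.Lib.MP_1a91b9_ntN.exists_iso36
      exact Pool.Agent.Lib.MP_1a91b9_ntMC.pid3
        ((e' : Pool.Agent.Lib.MP_1a91b9_ntT.K ≃+* _).trans e)
    obtain ⟨z, hz⟩ : ∃ z : K, IsPrimitiveRoot z 3 := by
      obtain ⟨s, hs⟩ := hs
      obtain ⟨z, hz⟩ := Pool.Agent.Lib.MP_1a91b9_ntMC.zeta_of_sq hs
      refine ⟨z, ?_⟩
      have hz1 : z ≠ 1 := by
        rintro rfl
        have h3 : (3 : K) ≠ 0 := by norm_num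
        apply h3
        linear_combination hz
      have hz3 : z ^ 3 = 1 := by linear_combination (z - 1) * hz
      rw [← orderOf_eq_prime hz3 hz1]
      exact IsPrimitiveRoot.orderOf z
    have e1 : cst 3 K F = ∏' i : ℕ, (1 + 1 / (3 : ℝ) ^ (i + 1))⁻¹ := by
      unfold cst
      rw [if_pos rfl]
    rw [e1] at hv
    obtain ⟨n₀, hn₀⟩ := loc_bridge hz r C hC
    refine law_discC hz finZ_norm r C hC0 n₀ hn₀ (fun N => t ≤ {δ ∈ T | PropM 3 (tw 3 E K δ) F N}.encard)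
      v (fun n u hu ε hε => ?_) ε hε
    refine finZ_mono (α := Fin r → 𝓞 K) (A := fun _ d => ∀ i, Pf 3 (d i) ∧ ((3 : ℕ) : 𝓞 K) ^ n ∣ d i - u i)
      (B := fun X d => ∃ A, A ≠ 0 ∧ |Algebra.norm ℤ A| ≤ X ∧ ∀ i, d i ∣ A ^ (3 - 1))
      (P := fun d => t ≤ {δ ∈ T | Pool.Agent.Lib.MP_1a91b9_ntMC.Fin.PropM (tw 3 E K δ) F (cK K d) ∧
        TowM (tw 3 E K δ) F (cK K d)}.encard)
      (P' := fun d => Module.finrank K (NK 3 (cK K d)) = 3 ^ r ∧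
        t ≤ {δ ∈ T | PropM 3 (tw 3 E K δ) F (NK 3 (cK K d))}.encard)
      (fun X => finZ_tup r _ X _) (fun X d hd hM => ?_)
      (l3T K hK hs E ⟨h1, h2, h4, h6⟩ hΔ F hF r T h0
        (fun δ hδ δ' hδ' hne x => (hT δ hδ δ' hδ' hne x).2 rfl) n u hu t v hv ε hε)
    have h7 : ∀ i, cK K d i ≠ 0 := by
      intro i
      have h7 : d i ≠ 0 := by
        intro h0
        have h8 := (hd i).1 0 (by
          rw [h0]
          exact dvd_zero _)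
        exact not_isUnit_zero h8
      show ((d i : 𝓞 K) : K) ≠ 0
      exact_mod_cast h7
    have h8 : ∀ δ : K, δ ≠ 0 → Pool.Agent.Lib.MP_1a91b9_ntMC.Fin.PropM (tw 3 E K δ) F (cK K d) ∧
        TowM (tw 3 E K δ) F (cK K d) →
        Module.finrank K (NK 3 (cK K d)) = 3 ^ r ∧ PropM 3 (tw 3 E K δ) F (NK 3 (cK K d)) := by
      intro δ hδ0 h
      refine d3Z K hK hs (tw 3 E K δ) ⟨rfl, ?_, ?_, rfl⟩ (finZ_tw3 h1 h2 h4 h6 hΔ hδ0) F hF h7 h.1 h.2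
      · show algebraMap K K (E.a₂ * δ ^ (2 / 3)) = 0
        rw [h2, zero_mul, map_zero]
      · show algebraMap K K (E.a₄ * δ ^ (4 / 3)) = 0
        rw [h4, zero_mul, map_zero]
    obtain ⟨δ, hδT, hδ⟩ := finZ_ex ht hM
    exact ⟨(h8 δ (fun h => h0 (h ▸ hδT)) hδ).1,
      finZ_set (fun δ hδT h => (h8 δ (fun h' => h0 (h' ▸ hδT)) h).2) hM⟩

/-- The field `K` is a principal ideal domain with finitely many units. -/
private theorem finZ_hyp {p : ℕ} {K : Type} [Field K] [NumberField K] {E : WeierstrassCurve K} {F : Type}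
    [Field F] [NumberField F] [Algebra K F] (H : Hyp p K E F) :
    IsPrincipalIdealRing (𝓞 K) ∧ Finite (𝓞 K)ˣ := by
  obtain ⟨hK, hΔ, h1, h6, hp, l, hl, hF⟩ := H
  rcases hp with ⟨rfl, h3, j, D, hjD, hj, hD⟩ | ⟨rfl, h2, h4, s, hs⟩
  · have hneg : D < 0 := by
      have h7 := hjD
      simp only [List.mem_cons, Prod.mk.injEq, List.not_mem_nil, or_false] at h7
      rcases h7 with ⟨-, rfl⟩ | ⟨-, rfl⟩ | ⟨-, rfl⟩ | ⟨-, rfl⟩ | ⟨-, rfl⟩ | ⟨-, rfl⟩ | ⟨-, rfl⟩ |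
        ⟨-, rfl⟩ | ⟨-, rfl⟩ | ⟨-, rfl⟩ | ⟨-, rfl⟩ | ⟨-, rfl⟩ | ⟨-, rfl⟩ <;> norm_num
    refine ⟨finZ_pid2 hK hΔ h1 h3 h6 hjD hj hD, ?_⟩
    obtain ⟨s, hs⟩ := hD
    exact Pool.Agent.Lib.MP_1a91b9_ntW.J.finite_units hK
      (Pool.Agent.Lib.MP_1a91b9_ntW.J.no_real hs hneg)
  · refine ⟨?_, ?_⟩
    · obtain ⟨e⟩ := Pool.Agent.Lib.MP_1a91b9_ntJ.exists_e6 hK hs
      obtain ⟨e'⟩ := Pool.Agent.Lib.MP_1a91b9_ntN.exists_iso36
      exact Pool.Agent.Lib.MP_1a91b9_ntMC.pid3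
        ((e' : Pool.Agent.Lib.MP_1a91b9_ntT.K ≃+* _).trans e)
    · have hs' : s ^ 2 = ((-3 : ℤ) : K) := by
        rw [hs]
        push_cast
        rfl
      exact Pool.Agent.Lib.MP_1a91b9_ntW.J.finite_units hK
        (Pool.Agent.Lib.MP_1a91b9_ntW.J.no_real hs' (by norm_num))

open scoped TensorProduct in
open Classical in
/-- **The two parts.** -/
theorem fin2 (p : ℕ) (K : Type) [Field K] [NumberField K] (E : WeierstrassCurve K) (F : Type) [Field F]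
    [NumberField F] [Algebra K F] (H : Hyp p K E F) :
    (∀ (r : ℕ) (T : Set K), 0 ∉ T → (∀ δ ∈ T, ∀ δ' ∈ T, δ ≠ δ' → Sep p E F δ δ') →
      ∀ t : ℕ, 0 < t → ∀ C : Set (IntermediateField K (AlgebraicClosure K)),
      (∃ N ∈ C, N ∈ Ext K p r) →
      (∀ N N' : IntermediateField K (AlgebraicClosure K),
        (∀ v : HeightOneSpectrum (𝓞 K), (p : 𝓞 K) ∈ v.asIdeal →
          Nonempty (v.adicCompletion K ⊗[K] N ≃ₐ[v.adicCompletion K] v.adicCompletion K ⊗[K] N')) →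
        N ∈ C → N' ∈ C) →
      ∀ v : ℝ, (v = if T.Infinite then 1 else ∑ j ∈ Finset.Icc t T.ncard, (T.ncard.choose j : ℝ) *
        (cst p K F ^ ((p ^ r - 1) * Module.finrank K F)) ^ j *
          (1 - cst p K F ^ ((p ^ r - 1) * Module.finrank K F)) ^ (T.ncard - j)) →
      ∀ ε : ℝ, 0 < ε → ∀ᶠ X : ℝ in Filter.atTop, v - ε ≤
        (Nat.card {N : IntermediateField K (AlgebraicClosure K) //
          N ∈ Ext K p r ∧ N ∈ C ∧ DiscLe N X ∧ t ≤ {δ ∈ T | PropM p (tw p E K δ) F N}.encard} : ℝ) /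
        (Nat.card {N : IntermediateField K (AlgebraicClosure K) //
          N ∈ Ext K p r ∧ N ∈ C ∧ DiscLe N X} : ℝ)) ∧
    ∃ T : Set K, T.Infinite ∧ 0 ∉ T ∧ (∀ δ ∈ T, ∀ δ' ∈ T, δ ≠ δ' → Sep p E F δ δ') ∧
      ∀ δ ∈ T, PropZ K ((tw p E K δ).baseChange F) := by
  refine ⟨fun r T h0 hT t ht C hC0 hC v hv ε hε => ?_, ?_⟩
  · exact finZ p K E F H r T h0 hT t ht C (hC0.elim fun N h => ⟨N, h⟩) hC v hv ε hε
  · obtain ⟨hpi, hfu⟩ := finZ_hyp H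
    exact infZ p K E F H

end Pool.Agent.Lib.MP_1a91b9_ntDZ
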