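import Pool.Agent.Lib.MP_1a91b9_ntDZ.Z1
import Pool.Agent.Lib.MP_1a91b9_ntDZ.Z7

/-!
# MP_1a91b9_nt (the discriminant form, fourth part): one set of twists for a sequence of fields
-/

set_option autoImplicit false

namespace Pool.Agent.Lib.MP_1a91b9_ntDZ

open NumberField
open Pool.Agent.Lib.MP_1a91b9_ntDF (RamOK tw Hyp)

/-- There is no condition on the ramification for `L = F`. -/
private theorem U8_ramOK {K : Type} [Field K] [NumberField K] {F : Type} [Field F] [NumberField F]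
    [Algebra K F] (V : WeierstrassCurve F) (q : ℕ) : RamOK K V q F := by
  intro v w hvw
  exfalso
  have h0 : v.asIdeal ≤ w.asIdeal ^ 2 := fun x hx => hvw (Ideal.mem_map_of_mem _ hx)
  have h1 : v.asIdeal = w.asIdeal :=
    v.isMaximal.eq_of_le w.isPrime.ne_top (h0.trans (Ideal.pow_le_self two_ne_zero))
  rw [h1] at h0
  exact absurd (Ideal.pow_lt_self w.asIdeal w.ne_bot w.isPrime.ne_top 2 le_rfl)
    (not_lt_of_ge h0)

/-- The L-series of the curve over every subfield is not zero at `1`. -/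
theorem u8_lne {K : Type} [Field K] [NumberField K] {E : WeierstrassCurve K} {F : Type} [Field F]
    [NumberField F] [Algebra K F] (P : Type) [Field P] [NumberField P] [Algebra K P] [Algebra P F]
    [IsScalarTower K P F] (h : PropZ K (E.baseChange F)) : LNonzero (E.baseChange P) := by
  obtain ⟨-, -, S, hS⟩ := h
  obtain ⟨q, hq1, hq⟩ := Nat.exists_infinite_primes (S.sup id + 1)
  have hqS : q ∉ S := fun h => by
    have h1 : id q ≤ S.sup id := Finset.le_sup h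
    rw [id] at h1
    omega
  have _ : Fact q.Prime := ⟨hq⟩
  have e1 : (E.baseChange P).baseChange F = E.baseChange F := by
    show (E.map (algebraMap K P)).map (algebraMap P F) = E.map (algebraMap K F)
    rw [WeierstrassCurve.map_map, ← IsScalarTower.algebraMap_eq K P F]
  have e2 : (E.baseChange F).baseChange F = E.baseChange F := by
    show (E.map (algebraMap K F)).map (algebraMap F F) = E.map (algebraMap K F)
    rw [WeierstrassCurve.map_map]
    rfl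
  obtain ⟨g, g1, g2, g3, -⟩ := hS q hqS 0 F F (by rw [pow_zero, Module.finrank_self])
    (U8_ramOK _ q) P (E.baseChange P) 1 (by rw [one_smul, e1, e2])
  exact ⟨g, g1, g2, g3⟩

/-- The twist, `p = 2`. -/
private theorem U8_two {K : Type} [Field K] {E : WeierstrassCurve K} (h1 : E.a₁ = 0)
    (h3 : E.a₃ = 0) (h6 : E.a₆ = 0) (hΔ : E.Δ ≠ 0) {j : ℤ} (hj : E.c₄ ^ 3 = j * E.Δ) {δ : K}
    (hδ : δ ≠ 0) : ((tw 2 E K δ).a₁ = 0 ∧ (tw 2 E K δ).a₃ = 0 ∧ (tw 2 E K δ).a₆ = 0) ∧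
      (tw 2 E K δ).Δ ≠ 0 ∧ (tw 2 E K δ).c₄ ^ 3 = j * (tw 2 E K δ).Δ := by
  have e0 : (tw 2 E K δ).a₃ = 0 := by
    show algebraMap K K (E.a₃ * δ ^ (3 / 2)) = 0
    rw [h3, zero_mul, map_zero]
  have e1 : tw 2 E K δ = ⟨0, E.a₂ * δ, 0, E.a₄ * δ ^ 2, 0⟩ := by
    refine WeierstrassCurve.ext rfl ?_ e0 ?_ rfl
    · show algebraMap K K (E.a₂ * δ ^ (2 / 2)) = E.a₂ * δ
      rw [show 2 / 2 = 1 from rfl, pow_one]
      rfl
    · show algebraMap K K (E.a₄ * δ ^ (4 / 2)) = E.a₄ * δ ^ 2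
      rfl
  have e2 : (tw 2 E K δ).Δ = δ ^ 6 * E.Δ := by
    rw [e1]
    unfold WeierstrassCurve.Δ WeierstrassCurve.b₂ WeierstrassCurve.b₄ WeierstrassCurve.b₆
      WeierstrassCurve.b₈
    rw [h1, h3, h6]
    ring
  have e3 : (tw 2 E K δ).c₄ = δ ^ 2 * E.c₄ := by
    rw [e1]
    unfold WeierstrassCurve.c₄ WeierstrassCurve.b₂ WeierstrassCurve.b₄
    rw [h1, h3]
    ring
  refine ⟨⟨rfl, e0, rfl⟩, ?_, ?_⟩
  · rw [e2]
    exact mul_ne_zero (pow_ne_zero 6 hδ) hΔ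
  · rw [e2, e3, mul_pow, hj]
    ring

/-- The twist, `p = 3`. -/
private theorem U8_three {K : Type} [Field K] {E : WeierstrassCurve K} (h1 : E.a₁ = 0)
    (h2 : E.a₂ = 0) (h4 : E.a₄ = 0) (h6 : E.a₆ = 0) (hΔ : E.Δ ≠ 0) {δ : K}
    (hδ : δ ≠ 0) : ((tw 3 E K δ).a₁ = 0 ∧ (tw 3 E K δ).a₂ = 0 ∧ (tw 3 E K δ).a₄ = 0 ∧
      (tw 3 E K δ).a₆ = 0) ∧ (tw 3 E K δ).Δ ≠ 0 := by
  have e0 : (tw 3 E K δ).a₂ = 0 := by
    show algebraMap K K (E.a₂ * δ ^ (2 / 3)) = 0
    rw [h2, zero_mul, map_zero]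
  have e4 : (tw 3 E K δ).a₄ = 0 := by
    show algebraMap K K (E.a₄ * δ ^ (4 / 3)) = 0
    rw [h4, zero_mul, map_zero]
  have e1 : tw 3 E K δ = ⟨0, 0, E.a₃ * δ, 0, 0⟩ := by
    refine WeierstrassCurve.ext rfl e0 ?_ e4 rfl
    show algebraMap K K (E.a₃ * δ ^ (3 / 3)) = E.a₃ * δ
    rw [show 3 / 3 = 1 from rfl, pow_one]
    rfl
  refine ⟨⟨rfl, e0, e4, rfl⟩, ?_⟩
  have e2 : (tw 3 E K δ).Δ = δ ^ 4 * E.Δ := by
    rw [e1]
    unfold WeierstrassCurve.Δ WeierstrassCurve.b₂ WeierstrassCurve.b₄ WeierstrassCurve.b₆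
      WeierstrassCurve.b₈
    rw [h1, h2, h4, h6]
    ring
  rw [e2]
  exact mul_ne_zero (pow_ne_zero 4 hδ) hΔ

/-- **The property `Z` of the twists over the subfields.** -/
theorem u8_desc (p : ℕ) (K : Type) [Field K] [NumberField K] (E : WeierstrassCurve K)
    (P : Type) [Field P] [NumberField P] [Algebra K P] (H : Hyp p K E P) {δ : K} (hδ : δ ≠ 0)
    (F : Type) [Field F] [NumberField F] [Algebra K F] [Algebra P F] [IsScalarTower K P F]
    (h : PropZ K ((tw p E K δ).baseChange F)) : PropZ K ((tw p E K δ).baseChange P) := by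
  obtain ⟨hK, hΔ, h1, h6, hp, l, hl, hP⟩ := H
  rcases hp with ⟨rfl, h3, j, D, hjD, hj, hD⟩ | ⟨rfl, h2, h4, hs⟩
  · obtain ⟨e1, e2, e3⟩ := U8_two h1 h3 h6 hΔ hj hδ
    exact z_two K hK (tw 2 E K δ) e1 e2 j D hjD e3 hD l (hl.imp id fun h => h.2) P hP (u8_lne P h)
  · obtain ⟨e1, e2⟩ := U8_three h1 h2 h4 h6 hΔ hδ
    have hl3 : l = 3 := by
      rcases hl with h | ⟨h, -⟩
      · exact h
      · exact absurd h (by norm_num)
    subst hl3
    exact z_three K hK hs (tw 3 E K δ) e1 e2 P hP (u8_lne P h)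

/-- Separated elements are separated over the subfields. -/
theorem u8_sub {p : ℕ} {K : Type} [Field K] {E : WeierstrassCurve K} {F F' : Type} [Field F] [Algebra K F]
    [Field F'] [Algebra K F'] (φ : F →ₐ[K] F') {δ δ' : K} (h : Sep p E F' δ δ') : Sep p E F δ δ' := by
  have h0 : ∀ x : F, ∀ n : ℕ, ∀ a b : K, x ^ n * algebraMap K F a = algebraMap K F b →
      (φ x) ^ n * algebraMap K F' a = algebraMap K F' b := by
    intro x n a b hx
    rw [← map_pow, ← φ.commutes, ← φ.commutes, ← map_mul, hx]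
  have h0' : ∀ x : F, ∀ n : ℕ, ∀ b : K, x ^ n = algebraMap K F b → (φ x) ^ n = algebraMap K F' b := by
    intro x n b hx
    rw [← map_pow, ← φ.commutes, hx]
  intro x
  refine ⟨fun hp e he hx => (h (φ x)).1 hp e he (h0 x 2 _ _ hx), fun hp => ?_⟩
  obtain ⟨h1, h2, h3⟩ := (h (φ x)).2 hp
  exact ⟨fun hx => h1 (h0' x 3 _ hx), fun hx => h2 (h0 x 3 _ _ hx), fun hx => h3 (h0' x 3 _ hx)⟩

/-- The elements of a separated set whose quotients are not powers: at most one is in a class. -/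
private theorem U8_class {K F : Type} [Field K] [Field F] [Algebra K F] {n : ℕ} {T : Set K} (h0 : (0 : K) ∉ T)
    (hT : ∀ δ ∈ T, ∀ δ' ∈ T, δ ≠ δ' → ∀ x : F, x ^ n * algebraMap K F δ' ≠ algebraMap K F δ)
    {c : F} (hc : c ≠ 0) :
    {δ ∈ T | ∃ x : F, x ^ n * algebraMap K F δ = c}.Finite ∧ {δ ∈ T | ∃ x : F, x ^ n * c = algebraMap K F δ}.Finite := by
  have hF : ∀ δ ∈ T, algebraMap K F δ ≠ 0 := fun δ hδ => (map_ne_zero _).2 fun h => h0 (h ▸ hδ)
  constructor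
  · refine Set.Subsingleton.finite ?_
    rintro δ ⟨hδ, x, hx⟩ δ' ⟨hδ', x', hx'⟩
    by_contra hne
    have hx0 : x ^ n ≠ 0 := by
      intro h
      rw [h, zero_mul] at hx
      exact hc hx.symm
    refine hT δ hδ δ' hδ' hne (x' / x) ?_
    rw [div_pow, div_mul_eq_mul_div, hx', ← hx, mul_comm, mul_div_assoc, div_self hx0, mul_one]
  · refine Set.Subsingleton.finite ?_
    rintro δ ⟨hδ, x, hx⟩ δ' ⟨hδ', x', hx'⟩
    by_contra hne
    have hx0 : x' ^ n ≠ 0 := by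
      intro h
      rw [h, zero_mul] at hx'
      exact hF δ' hδ' hx'.symm
    refine hT δ hδ δ' hδ' hne (x / x') ?_
    rw [div_pow, ← hx', ← hx]
    field_simp

/-- The elements of a separated set which are not separated from a given element are finitely many. -/
private theorem U8_fin {p : ℕ} {K : Type} [Field K] {E : WeierstrassCurve K} (hp : p = 2 ∧ E.a₄ ≠ 0 ∨ p = 3 ∧ E.a₃ ≠ 0)
    {F : Type} [Field F] [Algebra K F] {T : Set K} (hT : ∀ δ ∈ T, ∀ δ' ∈ T, δ ≠ δ' → Sep p E F δ δ') {a : K}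
    (ha : a ≠ 0) (hT0 : (0 : K) ∉ T) (hT2 : T.Infinite) (hca : p = 3 → ∀ x : F, x ^ 3 ≠ algebraMap K F (E.a₃ * a)) :
    {δ ∈ T | ¬ Sep p E F a δ ∨ ¬ Sep p E F δ a}.Finite := by
  classical
  have haF : algebraMap K F a ≠ 0 := (map_ne_zero _).2 ha
  rcases hp with ⟨rfl, hb⟩ | ⟨rfl, hb⟩
  · have hT' : ∀ δ ∈ T, ∀ δ' ∈ T, δ ≠ δ' → ∀ x : F, x ^ 2 * algebraMap K F δ' ≠ algebraMap K F δ := by
      intro δ hδ δ' hδ' hne x hx
      refine (hT δ hδ δ' hδ' hne x).1 rfl 1 (Set.mem_insert _ _) ?_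
      rw [one_mul]
      exact hx
    have he0 : ∀ e ∈ ({1, -1, E.a₄, -E.a₄} : Set K), algebraMap K F e ≠ 0 := by
      intro e he
      rw [Ne, map_eq_zero]
      simp only [Set.mem_insert_iff, Set.mem_singleton_iff] at he
      rcases he with rfl | rfl | rfl | rfl
      · exact one_ne_zero
      · exact neg_ne_zero.2 one_ne_zero
      · exact hb
      · exact neg_ne_zero.2 hb
    have h1 : (⋃ e ∈ ({1, -1, E.a₄, -E.a₄} : Set K),
        {δ ∈ T | ∃ x : F, x ^ 2 * algebraMap K F δ = algebraMap K F e * algebraMap K F a}).Finite :=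
      Set.Finite.biUnion (by simp) fun e he => (U8_class hT0 hT' (mul_ne_zero (he0 e he) haF)).1
    have h2 : (⋃ e ∈ ({1, -1, E.a₄, -E.a₄} : Set K),
        {δ ∈ T | ∃ x : F, x ^ 2 * (algebraMap K F a / algebraMap K F e) = algebraMap K F δ}).Finite :=
      Set.Finite.biUnion (by simp) fun e he => (U8_class hT0 hT' (div_ne_zero haF (he0 e he))).2
    refine (h1.union h2).subset ?_
    rintro δ ⟨hδ, h | h⟩
    · left
      by_contra hcon
      refine h fun x => ⟨fun _ e he hx => hcon (Set.mem_biUnion he ⟨hδ, x, ?_⟩), fun h => absurd h (by norm_num)⟩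
      rw [hx, map_mul]
    · right
      by_contra hcon
      refine h fun x => ⟨fun _ e he hx => hcon (Set.mem_biUnion he ⟨hδ, x, ?_⟩), fun h => absurd h (by norm_num)⟩
      rw [map_mul] at hx
      rw [mul_div_assoc', hx, mul_div_assoc, mul_comm, div_mul_cancel₀ _ (he0 e he)]
  · have hT' : ∀ δ ∈ T, ∀ δ' ∈ T, δ ≠ δ' → ∀ x : F, x ^ 3 * algebraMap K F δ' ≠ algebraMap K F δ :=
      fun δ hδ δ' hδ' hne x => ((hT δ hδ δ' hδ' hne x).2 rfl).2.1
    have hcT : ∀ δ ∈ T, ∀ x : F, x ^ 3 ≠ algebraMap K F (E.a₃ * δ) := by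
      intro δ hδ x
      obtain ⟨δ', hδ', hne⟩ : ∃ δ' ∈ T, δ ≠ δ' := by
        obtain ⟨δ', hδ', hne⟩ := hT2.exists_notMem_finite (Set.finite_singleton δ)
        exact ⟨δ', hδ', fun h => hne (by rw [h]; rfl)⟩
      exact ((hT δ hδ δ' hδ' hne x).2 rfl).1
    have hbF : algebraMap K F (E.a₃ ^ 2) ≠ 0 := (map_ne_zero _).2 (pow_ne_zero 2 hb)
    have h1 := U8_class hT0 hT' haF
    have h2 := (U8_class (n := 3) hT0 hT' (inv_ne_zero (mul_ne_zero hbF haF))).2
    refine ((h1.1.union h1.2).union h2).subset ?_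
    have key : ∀ δ x, x ^ 3 = algebraMap K F (E.a₃ ^ 2) * algebraMap K F a * algebraMap K F δ →
        x ^ 3 * (algebraMap K F (E.a₃ ^ 2) * algebraMap K F a)⁻¹ = algebraMap K F δ := by
      intro δ x hx
      rw [hx, mul_comm, ← mul_assoc, inv_mul_cancel₀ (mul_ne_zero hbF haF), one_mul]
    rintro δ ⟨hδ, h | h⟩
    · by_contra hcon
      rw [Set.mem_union, Set.mem_union, not_or, not_or] at hcon
      obtain ⟨⟨c1, c2⟩, c3⟩ := hcon
      refine h fun x => ⟨fun h => absurd h (by norm_num), fun _ => ⟨hca rfl x, fun hx => c1 ⟨hδ, x, hx⟩,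
        fun hx => c3 ⟨hδ, x, key δ x ?_⟩⟩⟩
      rw [hx, map_mul, map_mul]
    · by_contra hcon
      rw [Set.mem_union, Set.mem_union, not_or, not_or] at hcon
      obtain ⟨⟨c1, c2⟩, c3⟩ := hcon
      refine h fun x => ⟨fun h => absurd h (by norm_num), fun _ => ⟨hcT δ hδ x, fun hx => c2 ⟨hδ, x, hx⟩,
        fun hx => c3 ⟨hδ, x, key δ x ?_⟩⟩⟩
      rw [hx, map_mul, map_mul]
      ring

/-- **One set of twists for a sequence of fields.** For every increasing sequence of fields `F k` there are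
infinitely many elements `u m` of `K` such that for all `k ≤ m` the twist `E^(u m)` has the property `Z` over `F k`,
and the `u m`, `m ≥ k`, are separated over `F k`. -/
theorem u8_uni (p : ℕ) (K : Type) [Field K] [NumberField K] (E : WeierstrassCurve K) [IsPrincipalIdealRing (𝓞 K)]
    [Finite (𝓞 K)ˣ]
    (F : ℕ → IntermediateField K (AlgebraicClosure K)) [∀ k, NumberField (F k)] (hmono : Monotone F)
    (H : ∀ k, Hyp p K E (F k)) :
    ∃ u : ℕ → K, Function.Injective u ∧ (∀ k, u k ≠ 0) ∧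
      (∀ k m, k ≤ m → PropZ K ((tw p E K (u m)).baseChange (F k))) ∧
      ∀ k m m', k ≤ m → k ≤ m' → m ≠ m' → Sep p E (F k) (u m) (u m') := by
  classical
  have hb : p = 2 ∧ E.a₄ ≠ 0 ∨ p = 3 ∧ E.a₃ ≠ 0 := by
    obtain ⟨hK, hΔ, h1, h6, hp, -⟩ := H 0
    rcases hp with ⟨rfl, h3, -⟩ | ⟨rfl, h2, h4, -⟩
    · refine Or.inl ⟨rfl, fun h => hΔ ?_⟩
      simp only [WeierstrassCurve.Δ, WeierstrassCurve.b₂, WeierstrassCurve.b₄, WeierstrassCurve.b₆,
        WeierstrassCurve.b₈, h, h1, h3, h6]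
      ring
    · refine Or.inr ⟨rfl, fun h => hΔ ?_⟩
      simp only [WeierstrassCurve.Δ, WeierstrassCurve.b₂, WeierstrassCurve.b₄, WeierstrassCurve.b₆,
        WeierstrassCurve.b₈, h, h1, h2, h4, h6]
      ring
  have hT : ∀ m, ∃ T : Set K, T.Infinite ∧ 0 ∉ T ∧
      (∀ δ ∈ T, ∀ δ' ∈ T, δ ≠ δ' → Sep p E (F m) δ δ') ∧
      ∀ δ ∈ T, PropZ K ((tw p E K δ).baseChange (F m)) := fun m => infZ p K E (F m) (H m)
  choose T hTi hT0 hTs hTz using hT
  -- every element of `T m` is not in the class of `a₃` over the smaller fields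
  have hca : ∀ m, ∀ a ∈ T m, p = 3 → ∀ x : F m, x ^ 3 ≠ algebraMap K (F m) (E.a₃ * a) := by
    intro m a ha hp x
    obtain ⟨δ', hδ', hne⟩ : ∃ δ' ∈ T m, a ≠ δ' := by
      obtain ⟨δ', hδ', hne⟩ := (hTi m).exists_notMem_finite (Set.finite_singleton a)
      exact ⟨δ', hδ', fun h => hne (by rw [h]; rfl)⟩
    exact ((hTs m a ha δ' hδ' hne x).2 hp).1
  obtain ⟨f, hf1, hf2⟩ := exists_seq_of_forall_finset_exists (α := ℕ × K) (fun y => y.2 ∈ T y.1)
    (fun x y => x.1 < y.1 ∧ Sep p E (F x.1) x.2 y.2 ∧ Sep p E (F x.1) y.2 x.2) (by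
      intro s hs
      obtain ⟨M, hM⟩ : ∃ M, ∀ x ∈ s, x.1 < M := by
        refine ⟨s.sup Prod.fst + 1, fun x hx => ?_⟩
        have h : x.1 ≤ s.sup Prod.fst := Finset.le_sup (f := Prod.fst) hx
        omega
      have hbad : (⋃ x ∈ s, {δ ∈ T M | ¬ Sep p E (F x.1) x.2 δ ∨ ¬ Sep p E (F x.1) δ x.2}).Finite :=
        s.finite_toSet.biUnion fun x hx => U8_fin hb
          (fun δ hδ δ' hδ' hne => u8_sub (IntermediateField.inclusion (hmono (hM x hx).le)) (hTs M δ hδ δ' hδ' hne))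
          (fun h => hT0 x.1 (h ▸ hs x hx)) (hT0 M) (hTi M) (hca x.1 x.2 (hs x hx))
      obtain ⟨δ, hδ1, hδ2⟩ := ((hTi M).sdiff hbad).nonempty
      refine ⟨(M, δ), hδ1, fun x hx => ⟨hM x hx, ?_⟩⟩
      by_contra hne
      refine hδ2 (Set.mem_biUnion hx ⟨hδ1, ?_⟩)
      by_contra h4
      rw [not_or, not_not, not_not] at h4
      exact hne h4)
  have hidx : StrictMono fun n => (f n).1 := fun m n h => (hf2 m n h).1
  have hle : ∀ n, n ≤ (f n).1 := fun n => hidx.le_apply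
  have hu0 : ∀ n, (f n).2 ≠ 0 := fun n h => hT0 _ (h ▸ hf1 n)
  have hsep : ∀ k m m', k ≤ m → k ≤ m' → m ≠ m' → Sep p E (F k) (f m).2 (f m').2 := by
    intro k m m' h1 h2 hne
    rcases lt_or_gt_of_ne hne with h | h
    · exact u8_sub (IntermediateField.inclusion (hmono (h1.trans (hle m)))) (hf2 m m' h).2.1
    · exact u8_sub (IntermediateField.inclusion (hmono (h2.trans (hle m')))) (hf2 m' m h).2.2
  refine ⟨fun n => (f n).2, fun m m' h => ?_, hu0, fun k m hkm => ?_, hsep⟩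
  · by_contra hne
    have h4 := hsep 0 m m' (Nat.zero_le _) (Nat.zero_le _) hne 1
    have h5 : (f m).2 = (f m').2 := h
    rw [h5] at h4
    rcases hb with ⟨rfl, -⟩ | ⟨rfl, -⟩
    · refine h4.1 rfl 1 (Set.mem_insert _ _) ?_
      rw [one_pow, one_mul, one_mul]
    · refine (h4.2 rfl).2.1 ?_
      rw [one_pow, one_mul]
  · let _ : Algebra (F k) (F (f m).1) :=
      (IntermediateField.inclusion (hmono (hkm.trans (hle m)))).toRingHom.toAlgebra
    have _ : IsScalarTower K (F k) (F (f m).1) := IsScalarTower.of_algebraMap_eq fun _ => rfl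
    exact u8_desc p K E (F k) (H k) (hu0 m) (F (f m).1) (hTz _ _ (hf1 m))

end Pool.Agent.Lib.MP_1a91b9_ntDZ
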