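import Pool.Agent.Lib.MP_1a91b9_ntDZ.Z0
import Pool.Agent.Lib.MP_1a91b9_ntZ.TwS

/-!
# MP_1a91b9_nt (the discriminant form, third part): from the L-series to the towers
-/

set_option autoImplicit false

namespace Pool.Agent.Lib.MP_1a91b9_ntDZ

open NumberField
open Pool.Agent.Lib.MP_1a91b9_ntJ (TowP)

/-- The towers property in the language of `BSD0` (as `D3_bsd` in `ntDF/D3`; the first two parts: take a prime
number `q` outside `S`, `k = 0`, `N = L = M = F`, `W = V`; see `ntCC/RFin`, line 26, `ramOK_self` in `ntMQ/UW7`). -/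
theorem propZ_of {K : Type} [Field K] [NumberField K] {F : Type} [Field F] [NumberField F]
    [Algebra K F] {V : WeierstrassCurve F} (h : TowP K V) : PropZ K V := by
  obtain ⟨S, hS⟩ := h
  obtain ⟨q, hq1, hq⟩ := Nat.exists_infinite_primes (S.sup id + 1)
  have hqS : q ∉ S := fun h => by
    have h1 : id q ≤ S.sup id := Finset.le_sup h
    rw [id] at h1
    omega
  have _ : Fact q.Prime := ⟨hq⟩
  obtain ⟨g, g1, g2, g3, -, -, -, g7, -⟩ := hS q hqS 0 F F F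
    (by rw [pow_zero, Module.finrank_self]) (fun v w hvw => by
      exfalso
      have h0 : v.asIdeal ≤ w.asIdeal ^ 2 := fun x hx => hvw (Ideal.mem_map_of_mem _ hx)
      have h1 : v.asIdeal = w.asIdeal :=
        v.isMaximal.eq_of_le w.isPrime.ne_top (h0.trans (Ideal.pow_le_self two_ne_zero))
      rw [h1] at h0
      exact absurd (Ideal.pow_lt_self w.asIdeal w.ne_bot w.isPrime.ne_top 2 le_rfl)
        (not_lt_of_ge h0)) V 1 (by rw [one_smul])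
  exact ⟨⟨g, g1, g2, g3⟩, g7, S, fun q _ hq k L M _ _ _ _ _ _ _ _ _ hM hR N _ _ _ W C hC =>
    hS q hq k N L M hM hR W C hC⟩

/-- **`p = 2`.** (`ks_star` as in `star_two` of `ntZ/TwS` with `d = 1`; only the L-series is used there.) -/
theorem z_two (K : Type) [Field K] [NumberField K] (hK : Module.finrank ℚ K = 2)
    (E : WeierstrassCurve K) (hE : E.a₁ = 0 ∧ E.a₃ = 0 ∧ E.a₆ = 0) (hΔ : E.Δ ≠ 0) (j D : ℤ)
    (hjD : (j, D) ∈ [(0, -3), (54000, -3), (-12288000, -3), (1728, -4), (287496, -4), (-3375, -7),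
      (16581375, -7), (8000, -8), (-32768, -11), (-884736, -19), (-884736000, -43),
      (-147197952000, -67), (-262537412640768000, -163)])
    (hj : E.c₄ ^ 3 = j * E.Δ) (hD : ∃ s : K, s ^ 2 = D)
    (l : ℕ) (hl : l = 2 ∨ l = 4 ∧ ∃ i : K, i ^ 2 = -1)
    (F : Type) [Field F] [NumberField F] [Algebra K F]
    (hF : IntermediateField.adjoin K {x : F | ∃ c : K, x ^ l = algebraMap K F c} = ⊤)
    (h : LNonzero (E.baseChange F)) : PropZ K (E.baseChange F) := by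
  obtain ⟨a, b, rfl⟩ : ∃ a b : K, E = Pool.Agent.Lib.MP_1a91b9_ntL.crv a b :=
    ⟨E.a₂, E.a₄, WeierstrassCurve.ext hE.1 rfl hE.2.1 rfl hE.2.2⟩
  obtain ⟨s, hs⟩ := hD
  have hW : Pool.Agent.Lib.MP_1a91b9_ntY.CMK (Pool.Agent.Lib.MP_1a91b9_ntL.crv a b) :=
    ⟨hΔ, j, D, s, hjD, hs, hj⟩
  have e : (Pool.Agent.Lib.MP_1a91b9_ntW.J.twd (Pool.Agent.Lib.MP_1a91b9_ntL.crv a b)
      (((1 : 𝓞 K) : 𝓞 K) : K)).map (algebraMap K F) =
      (Pool.Agent.Lib.MP_1a91b9_ntL.crv a b).baseChange F := by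
    rw [Pool.Agent.Lib.MP_1a91b9_ntW.J.twd_crv]
    have e1 : ((1 : 𝓞 K) : K) = 1 := rfl
    rw [e1, one_mul, one_pow, one_mul]
    rfl
  have h1 := Pool.Agent.Lib.MP_1a91b9_ntJ.ks_star (K := K) (F := F) hl hF hK hW
    (Pool.Agent.Lib.MP_1a91b9_ntJ.pt2_crv a b) (d := 1) one_ne_zero (by rw [e]; exact h)
  rw [e] at h1
  exact propZ_of h1

/-- **`p = 3`.** (As in `star_three` of `ntZ/TwS` with `d = 1`; only the L-series is used there.) -/
theorem z_three (K : Type) [Field K] [NumberField K] (hK : Module.finrank ℚ K = 2)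
    (h3 : ∃ s : K, s ^ 2 = -3) (E : WeierstrassCurve K)
    (hE : E.a₁ = 0 ∧ E.a₂ = 0 ∧ E.a₄ = 0 ∧ E.a₆ = 0) (hΔ : E.Δ ≠ 0)
    (F : Type) [Field F] [NumberField F] [Algebra K F]
    (hF : IntermediateField.adjoin K {x : F | ∃ c : K, x ^ 3 = algebraMap K F c} = ⊤)
    (h : LNonzero (E.baseChange F)) : PropZ K (E.baseChange F) := by
  obtain ⟨a, rfl⟩ : ∃ a : K, E = ⟨0, 0, a, 0, 0⟩ :=
    ⟨E.a₃, WeierstrassCurve.ext hE.1 hE.2.1 rfl hE.2.2.1 hE.2.2.2⟩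
  have ha : a ≠ 0 := by
    rintro rfl
    exact hΔ (by
      unfold WeierstrassCurve.Δ WeierstrassCurve.b₂ WeierstrassCurve.b₄ WeierstrassCurve.b₆
        WeierstrassCurve.b₈
      ring)
  obtain ⟨s, hs⟩ := h3
  obtain ⟨e⟩ := Pool.Agent.Lib.MP_1a91b9_ntJ.exists_e6 hK hs
  obtain ⟨⟨x, y⟩, hxy⟩ := IsLocalization.surj (nonZeroDivisors (𝓞 K)) a
  have hy : ((y : 𝓞 K) : K) ≠ 0 := by exact_mod_cast nonZeroDivisors.ne_zero y.2
  have h1 : a * (((y : 𝓞 K) : 𝓞 K) : K) = ((x : 𝓞 K) : K) := hxy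
  have e1 : ((x * (y : 𝓞 K) ^ 2 : 𝓞 K) : K) = a * ((y : 𝓞 K) : K) ^ 3 := by
    push_cast
    linear_combination (-((y : 𝓞 K) : K) ^ 2) * h1
  have hα : x * (y : 𝓞 K) ^ 2 ≠ 0 := by
    intro h0
    rw [h0] at e1
    exact mul_ne_zero ha (pow_ne_zero 3 hy) (by rw [← e1]; rfl)
  have hy' : algebraMap K F ((y : 𝓞 K) : K) ≠ 0 := by
    rw [Ne, map_eq_zero_iff _ (algebraMap K F).injective]
    exact hy
  have e2 : (WeierstrassCurve.baseChange (⟨0, 0, a, 0, 0⟩ : WeierstrassCurve K) F) =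
      ⟨0, 0, algebraMap K F a, 0, 0⟩ :=
    WeierstrassCurve.ext (map_zero _) (map_zero _) rfl (map_zero _) (map_zero _)
  have hC1 : (⟨(Units.mk0 (algebraMap K F ((y : 𝓞 K) : K)) hy')⁻¹, 0, 0, 0⟩ :
      WeierstrassCurve.VariableChange F) • (⟨0, 0, algebraMap K F a, 0, 0⟩ : WeierstrassCurve F) =
      ⟨0, 0, algebraMap K F ((x * (y : 𝓞 K) ^ 2 : 𝓞 K) : K), 0, 0⟩ := by
    rw [e1, map_mul, map_pow]
    ext
    · simp [WeierstrassCurve.variableChange_a₁]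
    · simp [WeierstrassCurve.variableChange_a₂]
    · simp only [WeierstrassCurve.variableChange_a₃, inv_inv, Units.val_mk0]
      ring
    · simp [WeierstrassCurve.variableChange_a₄]
    · simp [WeierstrassCurve.variableChange_a₆]
  have hj0 : Pool.Agent.Lib.MP_1a91b9_nuI.HasJ
      (⟨0, 0, algebraMap K F a, 0, 0⟩ : WeierstrassCurve F) 0 := by
    simp [Pool.Agent.Lib.MP_1a91b9_nuI.HasJ, WeierstrassCurve.c₄, WeierstrassCurve.b₂,
      WeierstrassCurve.b₄]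
  rw [e2] at h ⊢
  have hL1 := Pool.Agent.Lib.MP_1a91b9_ntJ.lne_vc hC1 hj0 h
  have h6 := Pool.Agent.Lib.MP_1a91b9_ntJ.cub_star (K := K) (F := F) e hF hs hα hL1
  obtain ⟨C2, hC2⟩ := Pool.Agent.Lib.MP_1a91b9_ntJ.exists_iso3
    (algebraMap K F ((x * (y : 𝓞 K) ^ 2 : 𝓞 K) : K))
  exact propZ_of (Pool.Agent.Lib.MP_1a91b9_ntJ.towP_vc hC1
    (Pool.Agent.Lib.MP_1a91b9_ntJ.towP_vc hC2 h6))

end Pool.Agent.Lib.MP_1a91b9_ntDZ
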