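import Pool.Agent.Lib.MP_1a91b9_ntDZ.Z1
import Pool.Agent.Lib.MP_1a91b9_ntZ.AllB

/-!
# MP_1a91b9_nt (the discriminant form, third part): the density of the twists of rank zero
-/

set_option autoImplicit false

namespace Pool.Agent.Lib.MP_1a91b9_ntDZ

open NumberField
open Pool.Agent.Lib.MP_1a91b9_ntDF (tw cst Hyp Pf)

open Classical in
private theorem Z6_main (p : ℕ) (K : Type) [Field K] [NumberField K] (E : WeierstrassCurve K)
    (F : Type) [Field F] [NumberField F] [Algebra K F] (H : Hyp p K E F) (n : ℕ) (m u : 𝓞 K)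
    (hm : m ∣ (p : 𝓞 K) ^ n) (hu : ∀ q, Prime q → ¬ (q ^ p ∣ m ∧ q ^ p ∣ u)) (ε : ℝ) (hε : 0 < ε)
    (hp : p.Prime)
    (hE : (¬ p ∣ 2 → E.a₂ = 0) ∧ (¬ p ∣ 3 → E.a₃ = 0) ∧ (¬ p ∣ 4 → E.a₄ = 0)) (j D : ℤ)
    (hjD : (j, D) ∈ Pool.Agent.Lib.MP_1a91b9_ntY.cmList) (hj : E.c₄ ^ 3 = j * E.Δ)
    (hD : ∃ s : K, s ^ 2 = D)
    (hc : cst p K F = if Prime (p : 𝓞 K) then (if ∃ x : F, x ^ 2 = -1 then
        √((∏' i : ℕ, (1 + 1 / (p : ℝ) ^ (2 * i + 1))⁻¹) / 2) else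
        ∏' i : ℕ, (1 + 1 / (p : ℝ) ^ (2 * i + 1))⁻¹) else
      if Squarefree (p : 𝓞 K) then ∏' i : ℕ, (1 - 1 / (p : ℝ) ^ (i + 1)) else
      ∏' i : ℕ, (1 + 1 / (p : ℝ) ^ (i + 1))⁻¹) :
    ∀ᶠ X : ℝ in Filter.atTop, cst p K F ^ Module.finrank K F - ε ≤
      (Nat.card {d : 𝓞 K // Pf p d ∧ m ∣ d - u ∧ |Algebra.norm ℤ d| ≤ X ∧
        PropZ K ((tw p E K (d : K)).baseChange F)} : ℝ) /
      (Nat.card {d : 𝓞 K // Pf p d ∧ m ∣ d - u ∧ |Algebra.norm ℤ d| ≤ X} : ℝ) := by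
  obtain ⟨hK, hΔ, e1, e6, -, l, hl, hF⟩ := H
  have hl' : l = p ∨ l = 4 ∧ p = 2 ∧ ∃ i : K, i ^ 2 = -1 := by
    rcases hl with h | ⟨h1, h2, h3⟩
    · exact Or.inl h
    · exact Or.inr ⟨h2, h1, h3⟩
  have htc : IsTotallyComplex K := by
    obtain ⟨s, hs⟩ := hD
    refine Pool.Agent.Lib.MP_1a91b9_ntJ.tc_of_sq ?_ hs
    simp only [Pool.Agent.Lib.MP_1a91b9_ntY.cmList, List.mem_cons, Prod.mk.injEq, List.not_mem_nil,
      or_false] at hjD
    omega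
  have h := Pool.Agent.Lib.MP_1a91b9_ntZ.all_bin K hK p hp E ⟨e1, e6, hE.1, hE.2.1, hE.2.2⟩ hΔ j D
    hjD hj hD l hl' F hF {1} (fun h0 => zero_ne_one (Set.mem_singleton_iff.1 h0))
    (fun δ hδ δ' hδ' hne => absurd ((Set.mem_singleton_iff.1 hδ).trans
      (Set.mem_singleton_iff.1 hδ').symm) hne) n m u hm hu (cst p K F) hc 1
    (cst p K F ^ Module.finrank K F) (by
      rw [if_neg (Set.not_infinite.2 (Set.finite_singleton _)), Set.ncard_singleton,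
        Finset.Icc_self, Finset.sum_singleton, Nat.choose_self, Nat.sub_self, pow_zero, pow_one,
        Nat.cast_one, one_mul, mul_one]) ε hε
  filter_upwards [h] with X hX
  refine hX.trans (div_le_div_of_nonneg_right (Nat.cast_le.2 ?_) (Nat.cast_nonneg _))
  refine Pool.Agent.Lib.MP_1a91b9_ntJ.card_le_of
    ((Pool.Agent.Lib.MP_1a91b9_ntJ.finite_norm hK X).subset fun d hd => hd.2.2.1) ?_
  rintro d ⟨h1, h2, h3, h4⟩
  refine ⟨h1, h2, h3, propZ_of ?_⟩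
  obtain ⟨δ, hδ, hδ'⟩ := Set.one_le_encard_iff_nonempty.1 (by exact_mod_cast h4)
  rw [Set.mem_singleton_iff] at hδ
  subst hδ
  refine hδ' _ ?_
  unfold tw WeierstrassCurve.baseChange WeierstrassCurve.map
  simp

open Classical in
/-- **The density.** (`all_bin` of `ntZ/AllB` with `T = {1}`, `t = 1`, `v = c ^ [F : K]`, and `propZ_of`; the curve
over `F` is `(tw p E K d).baseChange F = tw p E F d`. For `p = 3` (`j = 0`, `D = -3`) the number `3` is neither prime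
nor squarefree in the ring of integers of `K`: `3 = -(√-3)²`.) -/
theorem densZ (p : ℕ) (K : Type) [Field K] [NumberField K] (E : WeierstrassCurve K) (F : Type)
    [Field F] [NumberField F] [Algebra K F] (H : Hyp p K E F) (n : ℕ) (m u : 𝓞 K)
    (hm : m ∣ (p : 𝓞 K) ^ n) (hu : ∀ q, Prime q → ¬ (q ^ p ∣ m ∧ q ^ p ∣ u)) (ε : ℝ) (hε : 0 < ε) :
    ∀ᶠ X : ℝ in Filter.atTop, cst p K F ^ Module.finrank K F - ε ≤
      (Nat.card {d : 𝓞 K // Pf p d ∧ m ∣ d - u ∧ |Algebra.norm ℤ d| ≤ X ∧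
        PropZ K ((tw p E K (d : K)).baseChange F)} : ℝ) /
      (Nat.card {d : 𝓞 K // Pf p d ∧ m ∣ d - u ∧ |Algebra.norm ℤ d| ≤ X} : ℝ) := by
  have H' := H
  obtain ⟨-, -, e1, e6, h23, -⟩ := H
  rcases h23 with ⟨rfl, e3, j, D, hjD, hj, hD⟩ | ⟨rfl, e2, e4, s, hs⟩
  · refine Z6_main 2 K E F H' n m u hm hu ε hε Nat.prime_two ⟨fun h => absurd dvd_rfl h,
      fun _ => e3, fun h => absurd (by decide : 2 ∣ 4) h⟩ j D hjD hj hD ?_
    unfold cst
    rw [if_neg (by decide)]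
    simp only [Nat.cast_ofNat]
  · have hnp : ¬ Prime (3 : 𝓞 K) ∧ ¬ Squarefree (3 : 𝓞 K) := by
      obtain ⟨σ, -, hσ, hσu⟩ := Pool.Agent.Lib.MP_1a91b9_ntJ.int_sqrt hs
      constructor
      · intro h
        rw [hσ] at h
        have h1 : Prime (σ ^ 2) := by
          have := h.neg
          rwa [neg_neg] at this
        have h2 := h1.irreducible.isUnit_or_isUnit (pow_two σ)
        exact hσu (h2.elim id id)
      · intro h
        refine hσu (h σ ?_)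
        rw [hσ, ← pow_two]
        exact (dvd_neg.2 dvd_rfl)
    refine Z6_main 3 K E F H' n m u hm hu ε hε Nat.prime_three ⟨fun _ => e2,
      fun h => absurd dvd_rfl h, fun _ => e4⟩ 0 (-3) (by
        rw [Pool.Agent.Lib.MP_1a91b9_ntY.cmList]
        exact List.mem_cons_self) ?_ ⟨s, by rw [hs]; push_cast; rfl⟩ ?_
    · unfold WeierstrassCurve.c₄ WeierstrassCurve.b₂ WeierstrassCurve.b₄
      rw [e1, e2, e4, Int.cast_zero]
      ring
    · unfold cst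
      rw [if_pos rfl]
      simp only [Nat.cast_ofNat]
      rw [if_neg hnp.1, if_neg hnp.2]

end Pool.Agent.Lib.MP_1a91b9_ntDZ
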